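import Pool.Agent.Lib_helper71.LSPM2.RMD
import Pool.Agent.Lib_helper97.LSPM2.SUM
import Pool.Agent.Lib_helper15.LSP2.SQF

/-! LSP2, part M2: bounds for the quadratic forms of the mollifiers. -/

set_option autoImplicit false

namespace Pool.Agent.LSP

open Pool.Agent.LEV Pool.Agent.LVB Pool.Agent.KSL
open Pool.Agent.FG61 (mu phi cc ff AA Lam)

/-- the weights do not depend on the bound -/
theorem vzb_wd {z B B' : ℕ} {V : ℕ → ℝ} (hV : RVec z B V) (h : B ≤ B') (q : ℕ) :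
    wd B' V q = wd B V q := by
  unfold wd
  symm
  refine Finset.sum_subset (Finset.Icc_subset_Icc_right h) fun d _ hd' => ?_
  split_ifs with h1
  · by_contra h2
    exact hd' (Finset.mem_Icc.2 ⟨(hV d h2).2.1, (hV d h2).2.2⟩)
  · rfl

theorem vzb_lg {z B : ℕ} {V : ℕ → ℝ} (hV : RVec z B V) : RVec z B (lg V) := fun d hd =>
  hV d fun h => hd (by unfold lg; rw [h, zero_mul])

/-- the sum of the squares of the weights -/
theorem vzb_QF {B B' : ℕ} {V : ℕ → ℝ} {R : Set ℕ} [DecidablePred (· ∈ R)] {K : ℝ}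
    (hRB : ∀ m ∈ R, m ≤ B) (h1 : ∀ q, 1 ≤ q → |wd B' V q| ≤ K * if q ∈ R then 1 / phi q else 0) :
    QF B' phi V V ≤ K ^ 2 * ∑ m ∈ (Finset.Icc 1 B).filter (· ∈ R), 1 / phi m := by
  unfold QF
  have hphi : ∀ q : ℕ, 1 ≤ q → 0 < phi q := by
    intro q hq
    unfold phi
    exact_mod_cast Nat.totient_pos.2 (by omega)
  have h2 : ∀ q ∈ Finset.Icc 1 B', phi q * (wd B' V q * wd B' V q) ≤
      K ^ 2 * (if q ∈ R then 1 / phi q else 0) := by
    intro q hq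
    rw [Finset.mem_Icc] at hq
    have h3 := h1 q hq.1
    have h4 := hphi q hq.1
    by_cases h5 : q ∈ R
    · rw [if_pos h5] at h3 ⊢
      have h6 : wd B' V q * wd B' V q ≤ (K * (1 / phi q)) ^ 2 := by
        rw [← pow_two, ← sq_abs]
        exact pow_le_pow_left₀ (abs_nonneg _) h3 2
      calc phi q * (wd B' V q * wd B' V q) ≤ phi q * (K * (1 / phi q)) ^ 2 :=
            mul_le_mul_of_nonneg_left h6 h4.le
        _ = K ^ 2 * (1 / phi q) := by field_simp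
    · rw [if_neg h5] at h3 ⊢
      rw [mul_zero] at h3 ⊢
      have h6 : wd B' V q = 0 := abs_eq_zero.1 (le_antisymm h3 (abs_nonneg _))
      rw [h6, mul_zero, mul_zero]
  refine (Finset.sum_le_sum h2).trans ?_
  rw [← Finset.mul_sum, ← Finset.sum_filter]
  refine mul_le_mul_of_nonneg_left ?_ (sq_nonneg _)
  refine Finset.sum_le_sum_of_subset_of_nonneg ?_ ?_
  · intro q hq
    rw [Finset.mem_filter, Finset.mem_Icc] at hq ⊢
    exact ⟨⟨hq.1.1, hRB q hq.2⟩, hq.2⟩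
  · intro q hq _
    rw [Finset.mem_filter, Finset.mem_Icc] at hq
    have := hphi q hq.1.1
    positivity

/-- the length of the mollifier -/
theorem vzb_MM {δ : ℝ} (h : -(1 / 4) < δ) {X : ℕ} (hX : 16 ≤ X) : 2 * MM δ X ≤ X := by
  have hX1 : (16 : ℝ) ≤ X := by exact_mod_cast hX
  have h1 : (MM δ X : ℝ) ≤ (X : ℝ) ^ (1 / 2 - δ) := Nat.floor_le (by positivity)
  have h2 : (X : ℝ) ^ (1 / 2 - δ) ≤ (X : ℝ) ^ (3 / 4 : ℝ) :=
    Real.rpow_le_rpow_of_exponent_le (by linarith) (by linarith)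
  have h3 : (2 : ℝ) ≤ (X : ℝ) ^ (1 / 4 : ℝ) := by
    calc (2 : ℝ) = ((16 : ℝ)) ^ (1 / 4 : ℝ) := by
          rw [show (16 : ℝ) = 2 ^ (4 : ℝ) by norm_num, ← Real.rpow_mul (by norm_num)]
          norm_num
      _ ≤ _ := Real.rpow_le_rpow (by norm_num) hX1 (by norm_num)
  have h4 : (X : ℝ) ^ (1 / 4 : ℝ) * (X : ℝ) ^ (3 / 4 : ℝ) = X := by
    rw [← Real.rpow_add (by linarith)]
    norm_num
  have h5 : (0 : ℝ) < (X : ℝ) ^ (3 / 4 : ℝ) := Real.rpow_pos_of_pos (by linarith) _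
  have h6 : ((2 * MM δ X : ℕ) : ℝ) ≤ X := by
    push_cast
    calc 2 * (MM δ X : ℝ) ≤ (X : ℝ) ^ (1 / 4 : ℝ) * (X : ℝ) ^ (3 / 4 : ℝ) :=
          mul_le_mul h3 (h1.trans h2) (Nat.cast_nonneg _) (by positivity)
      _ = X := h4
  exact_mod_cast h6

/-- the algebra -/
theorem vzb_num {C V L S T : ℝ} (hC : 1 ≤ C) (hV : 0 < V) (hL : 0 < L) (hS : S ≤ 2 * (V * L))
    (hT : 0 ≤ T) :
    V * (L * ((C / (L * V)) ^ 2 * S) + (C / V) ^ 2 * S / L) ≤ 1360 * C ^ 2 ∧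
    V * (L * (40 * (C / (L * V)) ^ 2 * S * T) +
      40 * (2 * (C / V) + 2 * L * (C / (L * V))) ^ 2 * S * T / L) ≤ 1360 * C ^ 2 * T := by
  have e1 : V * (L * ((C / (L * V)) ^ 2 * S) + (C / V) ^ 2 * S / L) =
      2 * C ^ 2 * (S / (V * L)) := by
    field_simp
    ring
  have e2 : V * (L * (40 * (C / (L * V)) ^ 2 * S * T) +
      40 * (2 * (C / V) + 2 * L * (C / (L * V))) ^ 2 * S * T / L) =
      680 * C ^ 2 * (S / (V * L)) * T := by
    field_simp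
    ring
  have h1 : S / (V * L) ≤ 2 := by
    rw [div_le_iff₀ (by positivity)]
    exact hS
  have h2 : 0 ≤ C ^ 2 := sq_nonneg C
  constructor
  · rw [e1]
    nlinarith
  · rw [e2]
    have h3 : 680 * C ^ 2 * (S / (V * L)) ≤ 1360 * C ^ 2 := by nlinarith
    exact mul_le_mul_of_nonneg_right h3 hT

theorem vz_bound_pr : ∃ C : ℝ, 1 ≤ C ∧ ∀ δ₁ : ℝ, -(1 / 4) < δ₁ → δ₁ < 1 / 4 → ∃ X₀ : ℕ,
    ∀ X : ℕ, X₀ ≤ X → ∀ (P : Finset ℕ) (θ : ℕ → ℝ) (B : ℕ), 2 * MM δ₁ X ≤ B →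
      Vz (zz X) * (Real.log X * QF B phi (YE δ₁ X) (YE δ₁ X) +
        QF B phi (lg (YE δ₁ X)) (lg (YE δ₁ X)) / Real.log X) ≤ C ∧
      ((∀ p ∈ P, p.Prime ∧ p ≤ X ∧ p * (2 * MM δ₁ X) ≤ B) →
        Vz (zz X) * (Real.log X * QF B phi (VZ P θ (YE δ₁ X)) (VZ P θ (YE δ₁ X)) +
          QF B phi (lg (VZ P θ (YE δ₁ X))) (lg (VZ P θ (YE δ₁ X))) / Real.log X) ≤
          C * Th P θ) := by
  classical
  obtain ⟨C, hC, hw⟩ := wd_le
  refine ⟨1360 * C ^ 2, by nlinarith, fun δ hδ0 hδ1 => ?_⟩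
  obtain ⟨X₁, hX₁⟩ := hw δ hδ0 hδ1
  obtain ⟨X₂, hX₂⟩ := sum_nu_pr (ε := 1) one_pos
  refine ⟨X₁ + X₂ + 16, fun X hX P θ B hB => ?_⟩
  have hX16 : 16 ≤ X := by omega
  have hXr : (16 : ℝ) ≤ X := by exact_mod_cast hX16
  obtain ⟨L, hL⟩ : ∃ L : ℝ, L = Real.log X := ⟨_, rfl⟩
  have hL0 : 0 < L := by
    rw [hL]
    exact Real.log_pos (by linarith)
  obtain ⟨V, hV⟩ : ∃ V : ℝ, V = Vz (zz X) := ⟨_, rfl⟩
  have hV0 : 0 < V := by
    rw [hV]
    exact phi_Vz_pos _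
  have hMX := vzb_MM hδ0 hX16
  have hRV : RVec (zz X) (2 * MM δ X) (YE δ X) := RVec_yE (by norm_num)
  obtain ⟨R, hR⟩ : ∃ R : Set ℕ, R = {m | Squarefree m ∧ rough (zz X) m ∧ m ≤ 2 * MM δ X} :=
    ⟨_, rfl⟩
  have hmem : ∀ m, m ∈ R ↔ Squarefree m ∧ rough (zz X) m ∧ m ≤ 2 * MM δ X := by
    intro m
    rw [hR]
    exact Iff.rfl
  have hR0 : 0 ∉ R := by
    rw [hmem]
    exact fun h => not_squarefree_zero h.1
  have hRd : ∀ m ∈ R, ∀ d, d ∣ m → d ∈ R := by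
    intro m hm d hd
    rw [hmem] at hm ⊢
    have hm0 : 0 < m := Nat.pos_of_ne_zero hm.1.ne_zero
    exact ⟨hm.1.squarefree_of_dvd hd, fun p hp hpd => hm.2.1 p hp (hpd.trans hd),
      (Nat.le_of_dvd hm0 hd).trans hm.2.2⟩
  have hRB : ∀ m ∈ R, m ≤ 2 * MM δ X := fun m hm => ((hmem m).1 hm).2.2
  have hK : 0 ≤ C / (L * V) := by positivity
  have hK' : 0 ≤ C / V := by positivity
  have h1 : ∀ q, 1 ≤ q → |wd (2 * MM δ X) (YE δ X) q| ≤
      C / (L * V) * if q ∈ R then 1 / phi q else 0 := by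
    intro q hq
    obtain ⟨h2, h3, -⟩ := hX₁ X (by omega) q hq
    by_cases h5 : q ∈ R
    · rw [if_pos h5, hL, hV]
      exact h3
    · rw [if_neg h5, mul_zero, (h2 fun h => h5 ((hmem q).2 h)).1, abs_zero]
  have h1' : ∀ q, 1 ≤ q → |wd (2 * MM δ X) (lg (YE δ X)) q| ≤
      C / V * if q ∈ R then 1 / phi q else 0 := by
    intro q hq
    obtain ⟨h2, -, h3⟩ := hX₁ X (by omega) q hq
    by_cases h5 : q ∈ R
    · rw [if_pos h5, hV]
      exact h3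
    · rw [if_neg h5, mul_zero, (h2 fun h => h5 ((hmem q).2 h)).2, abs_zero]
  obtain ⟨S, hS⟩ : ∃ S : ℝ, S = ∑ m ∈ (Finset.Icc 1 (2 * MM δ X)).filter (· ∈ R), 1 / phi m :=
    ⟨_, rfl⟩
  have hS2 : S ≤ 2 * (V * L) := by
    have h2 := hX₂ X (by omega) X (by linarith) le_rfl
    rw [← hL, ← hV, one_mul] at h2
    have h3 : S ≤ ∑ q ∈ (RO (zz X) X).filter (fun q : ℕ => (q : ℝ) ≤ X), nu q := by
      rw [hS]
      have e1 : ∀ m ∈ (Finset.Icc 1 (2 * MM δ X)).filter (· ∈ R), 1 / phi m = nu m := by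
        intro m hm
        rw [Finset.mem_filter, hmem] at hm
        have h4 : mu m ^ 2 = 1 := by
          unfold mu
          have := ArithmeticFunction.moebius_sq_eq_one_of_squarefree hm.2.1
          exact_mod_cast this
        unfold nu
        rw [h4]
      rw [Finset.sum_congr rfl e1]
      refine Finset.sum_le_sum_of_subset_of_nonneg ?_ ?_
      · intro m hm
        rw [Finset.mem_filter, hmem, Finset.mem_Icc] at hm
        unfold RO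
        rw [Finset.mem_filter, Finset.mem_filter, Finset.mem_Icc]
        have h5 : m ≤ X := hm.1.2.trans hMX
        exact ⟨⟨⟨hm.1.1, h5⟩, hm.2.2.1⟩, by exact_mod_cast h5⟩
      · intro m _ _
        unfold nu phi
        positivity
    have h4 := (abs_le.1 h2).2
    linarith
  obtain ⟨T, hT⟩ : ∃ T : ℝ, T = Th P θ := ⟨_, rfl⟩
  have hT0 : 0 ≤ T := by
    rw [hT]
    unfold Th
    positivity
  obtain ⟨hn1, hn2⟩ := vzb_num hC hV0 hL0 hS2 hT0
  rw [← hL, ← hV, ← hT]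
  constructor
  · refine le_trans ?_ hn1
    have e1 : QF B phi (YE δ X) (YE δ X) ≤ (C / (L * V)) ^ 2 * S := by
      rw [hS]
      refine vzb_QF hRB fun q hq => ?_
      rw [vzb_wd hRV hB]
      exact h1 q hq
    have e2 : QF B phi (lg (YE δ X)) (lg (YE δ X)) ≤ (C / V) ^ 2 * S := by
      rw [hS]
      refine vzb_QF hRB fun q hq => ?_
      rw [vzb_wd (vzb_lg hRV) hB]
      exact h1' q hq
    gcongr
  · intro hP
    obtain ⟨h2, h3⟩ := VT_bound_pr (B' := B) hRV hRd hR0 hK hK' h1 h1' (P := P)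
      (fun p hp => ⟨(hP p hp).1, (hP p hp).2.2⟩) θ
    have h4 := h3 L fun p hp => by
      rw [hL]
      have h5 := hP p hp
      exact Real.log_le_log (by exact_mod_cast h5.1.pos) (by exact_mod_cast h5.2.1)
    rw [← hS, ← hT] at h2 h4
    refine le_trans ?_ hn2
    gcongr

end Pool.Agent.LSP
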