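import Pool.Agent.Lib_helper68.LEV.Fin2
import Pool.Agent.Lib_helper68.KSLF.FIC
import Pool.Agent.Lib_helper41.LVBF.AFE
import Pool.Agent.Lib_helper32.NNF.FIN

/-! The Gaussian law at the thresholds `(log N)^{-A}`, and the central value as a nonnegative real
number. -/

set_option autoImplicit false

namespace Pool.Agent.LSP

open Complex MeasureTheory ProbabilityTheory

/-- almost the full mass lies above a low threshold -/
theorem gauss_low {ε : ℝ} (hε : 0 < ε) : ∃ V : ℝ, 1 - ε ≤ (gaussianReal 0 1).real (Set.Ici V) := by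
  have h1 : Set.univ = ⋃ n : ℕ, Set.Ici (-(n : ℝ)) := by
    ext x
    simp only [Set.mem_univ, Set.mem_iUnion, Set.mem_Ici, true_iff]
    obtain ⟨n, hn⟩ := exists_nat_ge (-x)
    exact ⟨n, by linarith⟩
  have hmono : Monotone (fun n : ℕ => Set.Ici (-(n : ℝ))) := by
    intro m n hmn
    apply Set.Ici_subset_Ici.mpr
    have : (m : ℝ) ≤ n := by exact_mod_cast hmn
    linarith
  have h2 := tendsto_measure_iUnion_atTop (μ := gaussianReal 0 1) hmono
  rw [← h1, measure_univ] at h2
  have h3 := (ENNReal.tendsto_toReal ENNReal.one_ne_top).comp h2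
  rw [ENNReal.toReal_one] at h3
  obtain ⟨n, hn⟩ := (h3.eventually (lt_mem_nhds (by linarith : (1 : ℝ) - ε < 1))).exists
  exact ⟨-(n : ℝ), hn.le⟩

theorem gauss_half : (gaussianReal 0 1).real (Set.Ici 0) = 1 / 2 := by
  have : NullSingletonClass (gaussianReal 0 1) := nullSingletonClass_gaussianReal (by norm_num)
  have h1 : (gaussianReal 0 1).real (Set.Ici 0) = (gaussianReal 0 1).real (Set.Iic 0) := by
    have h2 : (gaussianReal 0 1).map (fun x => -x) = gaussianReal 0 1 := by
      rw [gaussianReal_map_neg, neg_zero]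
    conv_lhs => rw [← h2]
    rw [map_measureReal_apply measurable_neg measurableSet_Ici]
    congr 1
    ext x
    simp
  have h3 : (gaussianReal 0 1).real (Set.Iic 0) + (gaussianReal 0 1).real (Set.Iic 0)ᶜ = 1 :=
    probReal_add_probReal_compl measurableSet_Iic
  have h4 : (gaussianReal 0 1).real (Set.Iic 0)ᶜ = (gaussianReal 0 1).real (Set.Ici 0) := by
    rw [Set.compl_Iic, measureReal_def, measureReal_def, Ioi_ae_eq_Ici.measure_eq]
  rw [h4, ← h1] at h3
  linarith

theorem gauss_near {ε : ℝ} (hε : 0 < ε) : ∃ V : ℝ, 0 < V ∧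
    1 / 2 - ε ≤ (gaussianReal 0 1).real (Set.Ici V) := by
  obtain ⟨V, hV, h⟩ := KSL.fic_gauss 0 hε
  rw [gauss_half] at h
  exact ⟨V, hV, h⟩

/-- the thresholds compared -/
theorem thr_low (V : ℝ) {A : ℝ} (hA : 1 / 2 < A) : ∃ N₀ : ℕ, ∀ N : ℕ, N₀ ≤ N →
    Real.log N ^ (-A) < Real.log N ^ (-(1 / 2) : ℝ) *
      Real.exp (V * Real.sqrt (Real.log (Real.log N))) := by
  have hll : Filter.Tendsto (fun N : ℕ => Real.sqrt (Real.log (Real.log (N : ℝ))))
      Filter.atTop Filter.atTop :=
    Real.tendsto_sqrt_atTop.comp (Real.tendsto_log_atTop.comp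
      (Real.tendsto_log_atTop.comp tendsto_natCast_atTop_atTop))
  obtain ⟨N₀, hN₀⟩ := Filter.eventually_atTop.mp
    (hll.eventually_gt_atTop (max 1 (|V| / (A - 1 / 2))))
  refine ⟨N₀ + 3, fun N hN => ?_⟩
  have h1 := hN₀ N (by omega)
  set u := Real.sqrt (Real.log (Real.log (N : ℝ))) with hu
  have hlog : 0 < Real.log N := Real.log_pos (by exact_mod_cast (by omega : 1 < N))
  have hu1 : 1 < u := (le_max_left _ _).trans_lt h1
  have hu2 : |V| / (A - 1 / 2) < u := (le_max_right _ _).trans_lt h1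
  have hA' : 0 < A - 1 / 2 := by linarith
  rw [div_lt_iff₀ hA'] at hu2
  have h2 : Real.log (Real.log (N : ℝ)) = u ^ 2 := by
    rw [hu, Real.sq_sqrt]
    by_contra h
    push Not at h
    rw [hu, Real.sqrt_eq_zero_of_nonpos h.le] at hu1
    linarith
  rw [Real.rpow_def_of_pos hlog, Real.rpow_def_of_pos hlog, ← Real.exp_add, Real.exp_lt_exp, h2]
  have h3 : -(|V|) ≤ V := neg_abs_le V
  have h4 : |V| * u < (A - 1 / 2) * u ^ 2 := by nlinarith
  nlinarith

/-- the central value of an even newform is a nonnegative real number -/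
theorem Lh_norm {N : ℕ} [Fact N.Prime] (hN : 3 ≤ N) {f : LEV.S2 N} (hf : LEV.IsNew f)
    (h1 : LEV.co f N = 1) : ‖LEV.Lh f‖ = (LEV.Lh f).re := by
  have h2 := (LVB.afe hN hf h1).2
  have h3 := LEV.lval_nonneg N f hf
  rw [h2, Complex.norm_real, Real.norm_eq_abs, Complex.ofReal_re]
  rw [h2, Complex.ofReal_re] at h3
  exact abs_of_nonneg h3

end Pool.Agent.LSP
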