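import Pool.Agent.Lib_helper41.LSP2.Defs2
import Pool.Agent.Lib_helper68.LSPF.TB

/-! LSP2, part F: typical size of the prime sum. -/

set_option autoImplicit false

namespace Pool.Agent.LSP

open Pool.Agent.LEV Pool.Agent.LVB Pool.Agent.KSL
open Pool.Agent.FG61 (mu phi cc ff AA Lam)
open Complex MeasureTheory Filter Topology UpperHalfPlane ModularGroup ProbabilityTheory
open scoped MatrixGroups Modular ENNReal ModularForm ComplexConjugate ContDiff

theorem ts_um {p : ℕ} (hp : p.Prime) (x : ℕ → ℝ) : Um p x = x p := by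
  unfold Um
  rw [hp.primeFactors, Finset.prod_singleton, hp.factorization_self]
  rfl

theorem ts_mem {κ v : ℝ} {X p : ℕ} (hp : p ∈ PB κ v X) :
    p.Prime ∧ (X : ℝ) ^ v / 2 ≤ p ∧ (p : ℝ) ≤ 2 * (X : ℝ) ^ (v + κ) ∧
      p ∈ Finset.Icc 1 ⌊2 * (X : ℝ) ^ (v + κ)⌋₊ := by
  unfold PB at hp
  rw [Finset.mem_filter, Finset.mem_Icc] at hp
  refine ⟨hp.2.1, hp.2.2, ?_, Finset.mem_Icc.mpr hp.1⟩
  exact (Nat.le_floor_iff' (by omega)).mp hp.1.2

/-- typical size of the sum over the primes of the band -/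
theorem typ_s {κ v : ℝ} (hv : v + κ < 1) {b : ℝ} (hb : 0 < b) {ε : ℝ} (hε : 0 < ε) :
    ∃ X₀ : ℕ, ∀ X : ℕ, X₀ ≤ X → ∀ θ : ℕ → ℝ, (∀ p ∈ PB κ v X, 0 ≤ θ p ∧ θ p ≤ 1) →
    ∑ p ∈ PB κ v X, θ p / p ≤ 1 → ∀ (N : ℕ) [Fact N.Prime], X ≤ 2 * N →
    ∀ {ι : Type} [Fintype ι] (f : ι → S2 N), Function.Injective f → (∀ i, IsNew (f i)) →
    ∀ t : Finset ι, (∀ i ∈ t, Real.log X ^ b <
      |∑ p ∈ PB κ v X, θ p * (la (f i) p / Real.sqrt p)|) → ∑ i ∈ t, om (f i) ≤ ε := by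
  classical
  obtain ⟨X₁, hX₁⟩ := fia_grow (a := v + κ) (c := (1 / 100) ^ 2 / 8) hv (by positivity)
  have hl : Tendsto (fun N : ℕ => Real.log (N : ℝ) ^ (2 * b)) atTop atTop :=
    (tendsto_rpow_atTop (by positivity)).comp
      (Real.tendsto_log_atTop.comp tendsto_natCast_atTop_atTop)
  obtain ⟨X₂, hX₂⟩ := Filter.eventually_atTop.mp (hl.eventually_ge_atTop (2 / ε))
  refine ⟨X₁ + X₂ + 3, fun X hX θ hθ hS N _ hXN ι _ f hi hn t ht => ?_⟩
  have hX1 : (1 : ℝ) ≤ X := by exact_mod_cast (by omega : 1 ≤ X)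
  have hX0 : (0 : ℝ) < X := by linarith
  have hlog0 : 0 ≤ Real.log X := Real.log_nonneg hX1
  have hXN' : (X : ℝ) ≤ 2 * N := by exact_mod_cast hXN
  have hN0 : (0 : ℝ) < N := by linarith
  obtain ⟨Q, hQ⟩ : ∃ Q : ℕ, Q = ⌊2 * (X : ℝ) ^ (v + κ)⌋₊ + 1 := ⟨_, rfl⟩
  have hQ1 : 1 ≤ Q := by omega
  have hgr := hX₁ X (by omega)
  have hf : (⌊2 * (X : ℝ) ^ (v + κ)⌋₊ : ℝ) ≤ 2 * (X : ℝ) ^ (v + κ) := Nat.floor_le (by positivity)
  by_cases hne : (PB κ v X).Nonempty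
  swap
  · rw [Finset.not_nonempty_iff_eq_empty] at hne
    have h1 : t = ∅ := by
      rw [Finset.eq_empty_iff_forall_notMem]
      intro i hi'
      have h2 := ht i hi'
      rw [hne, Finset.sum_empty, abs_zero] at h2
      have h3 : 0 ≤ Real.log X ^ b := Real.rpow_nonneg hlog0 _
      linarith
    rw [h1, Finset.sum_empty]
    exact hε.le
  obtain ⟨p₀, hp₀⟩ := hne
  have h2X : 1 ≤ ⌊2 * (X : ℝ) ^ (v + κ)⌋₊ := by
    have := Finset.mem_Icc.mp (ts_mem hp₀).2.2.2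
    omega
  have hQN : (Q : ℝ) ≤ (1 / 100) ^ 2 * N := by
    have h3 : (1 : ℝ) ≤ ⌊2 * (X : ℝ) ^ (v + κ)⌋₊ := by exact_mod_cast h2X
    rw [hQ]
    push_cast
    linarith
  have hQlt : Q < N := by
    have h3 : (Q : ℝ) < N := by linarith
    exact_mod_cast h3
  have hPr : ∀ p ∈ Pr N, p.Prime ∧ p < N := by
    intro p hp
    unfold Pr at hp
    rw [Finset.mem_filter, Finset.mem_range] at hp
    exact ⟨hp.2, hp.1⟩
  obtain ⟨P, hP⟩ := st_exists (Pr N) (fun p hp => (hPr p hp).1)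
  obtain ⟨c, hc⟩ : ∃ c : ℕ → ℝ, c = fun m => if m ∈ PB κ v X then θ m / Real.sqrt m else 0 :=
    ⟨_, rfl⟩
  have hcs : ∀ m, c m ≠ 0 → 1 ≤ m ∧ m ≤ Q ∧ m.primeFactors ⊆ Pr N := by
    intro m hm
    have hmem : m ∈ PB κ v X := by
      by_contra h
      exact hm (by rw [hc]; simp only [if_neg h])
    obtain ⟨h1, -, -, h2⟩ := ts_mem hmem
    rw [Finset.mem_Icc] at h2
    refine ⟨h2.1, by omega, ?_⟩
    rw [h1.primeFactors, Finset.singleton_subset_iff]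
    unfold Pr
    rw [Finset.mem_filter, Finset.mem_range]
    exact ⟨by omega, h1⟩
  have hG : ∀ x : ℕ → ℝ, ∑ p ∈ PB κ v X, θ p * (x p / Real.sqrt p) =
      ∑ m ∈ Finset.Icc 1 Q, c m * Um m x := by
    intro x
    have hsub : PB κ v X ⊆ Finset.Icc 1 Q := by
      intro p hp
      have h2 := Finset.mem_Icc.mp (ts_mem hp).2.2.2
      rw [Finset.mem_Icc]
      omega
    rw [← Finset.sum_subset hsub]
    · refine Finset.sum_congr rfl fun p hp => ?_
      rw [hc]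
      simp only [if_pos hp]
      rw [ts_um (ts_mem hp).1]
      ring
    · intro m _ hm
      rw [hc]
      simp only [if_neg hm, zero_mul]
  have hHP : HPoly (Pr N) Q (fun x => ∑ p ∈ PB κ v X, θ p * (x p / Real.sqrt p)) :=
    ⟨c, hcs, fun x => hG x⟩
  have htr := transfer f hi hn (ν := 1 / 100) (by norm_num) (by norm_num) hQ1 hQN
    (I := Pr N) hPr hP hHP 0
  simp only [zero_mul, add_zero, ne_eq, OfNat.ofNat_ne_zero, not_false_eq_true, zero_pow] at htr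
  have hsq : ∫ x, (∑ p ∈ PB κ v X, θ p * (x p / Real.sqrt p)) ^ 2 ∂P ≤ 1 := by
    have h2 : ∫ x, (∑ p ∈ PB κ v X, θ p * (x p / Real.sqrt p)) ^ 2 ∂P =
        ∑ m ∈ Finset.Icc 1 Q, c m ^ 2 := by
      rw [← st_sq (fun p hp => (hPr p hp).1) hP hcs]
      refine integral_congr_ae (Eventually.of_forall fun x => ?_)
      show (∑ p ∈ PB κ v X, θ p * (x p / Real.sqrt p)) ^ 2 = (∑ m ∈ Finset.Icc 1 Q, c m * Um m x) ^ 2
      rw [hG]
    rw [h2]
    have h3 : ∑ m ∈ Finset.Icc 1 Q, c m ^ 2 = ∑ p ∈ PB κ v X, c p ^ 2 := by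
      symm
      apply Finset.sum_subset
      · intro p hp
        have h2 := Finset.mem_Icc.mp (ts_mem hp).2.2.2
        rw [Finset.mem_Icc]
        omega
      · intro m _ hm
        rw [hc]
        simp only [if_neg hm]
        norm_num
    rw [h3]
    refine le_trans (Finset.sum_le_sum fun p hp => ?_) hS
    rw [hc]
    simp only [if_pos hp]
    obtain ⟨h4, h5⟩ := hθ p hp
    rw [div_pow, Real.sq_sqrt (Nat.cast_nonneg p)]
    apply div_le_div_of_nonneg_right _ (Nat.cast_nonneg p)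
    nlinarith
  have h6 : ∑ i, om (f i) * (∑ p ∈ PB κ v X, θ p * (la (f i) p / Real.sqrt p)) ^ 2 ≤ 2 := by
    refine htr.trans ?_
    have h7 : (0 : ℝ) ≤ ∫ x, (∑ p ∈ PB κ v X, θ p * (x p / Real.sqrt p)) ^ 2 ∂P :=
      integral_nonneg fun x => sq_nonneg _
    calc Real.exp (8 * Real.pi * (1 / 100)) *
          ∫ x, (∑ p ∈ PB κ v X, θ p * (x p / Real.sqrt p)) ^ 2 ∂P ≤ 2 * 1 :=
          mul_le_mul tym_exp hsq h7 (by norm_num)
      _ = 2 := by norm_num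
  have hlim := hX₂ X (by omega)
  have hlogb : 0 < Real.log X ^ (2 * b) := lt_of_lt_of_le (by positivity) hlim
  have h7 := HAR_cheb (fun i => om (f i))
    (fun i => (∑ p ∈ PB κ v X, θ p * (la (f i) p / Real.sqrt p)) ^ 2)
    (fun i => tym_om _) (fun i => sq_nonneg _)
    (t := Real.log X ^ (2 * b)) hlogb h6 t (by
      intro i hi'
      have h8 := ht i hi'
      have h9 : Real.log X ^ (2 * b) = (Real.log X ^ b) ^ 2 := by
        rw [← Real.rpow_natCast, ← Real.rpow_mul hlog0]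
        congr 1
        push_cast
        ring
      rw [h9]
      show (Real.log X ^ b) ^ 2 ≤ (∑ p ∈ PB κ v X, θ p * (la (f i) p / Real.sqrt p)) ^ 2
      rw [← sq_abs (∑ p ∈ PB κ v X, θ p * (la (f i) p / Real.sqrt p))]
      exact pow_le_pow_left₀ (Real.rpow_nonneg hlog0 _) h8.le 2)
  refine h7.trans ?_
  rw [div_le_iff₀ hlogb]
  rw [div_le_iff₀ hε] at hlim
  linarith

end Pool.Agent.LSP
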