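import Pool.Agent.Lib_helper68.LSPF.GL

/-! LSP2, part F: the harmonic average for an abstract mollifier. -/

namespace Pool.Agent.LSP

open Pool.Agent.LEV Pool.Agent.LVB Pool.Agent.KSL
open Pool.Agent.FG61 (mu phi cc ff AA Lam)
open Complex MeasureTheory Filter Topology UpperHalfPlane ModularGroup ProbabilityTheory
open scoped MatrixGroups Modular ENNReal ModularForm ComplexConjugate ContDiff

/-- a mollifier operator: `x X a` is the coefficient vector, of length `E X`, attached to the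
smooth coefficients `a`, and `R X` its rough part -/
structure MolOp (C₀ C₁ : ℕ) (ε₂ : ℝ) (P : ℕ → Prop) (E : ℕ → ℕ) (x : ℕ → (ℕ → ℝ) → ℕ → ℝ)
    (R : ℕ → (ℕ → ℝ) → ℝ) : Prop where
  size : ∀ c : ℝ, 0 < c → ∃ X₀ : ℕ, ∀ X : ℕ, X₀ ≤ X → 1 ≤ E X ∧ (E X : ℝ) ≤ c * X
  coef : ∀ m₀ : ℕ, ∃ X₀ : ℕ, ∀ X : ℕ, X₀ ≤ X → P X → ∀ a : ℕ → ℝ,
    Sht (zz X) (KA ε₂ X) a → (∀ k : ℕ, |a k| * Real.sqrt k ≤ Real.log X ^ C₀ * tau k ^ C₁) →
    (∀ e, x X a e ≠ 0 → 1 ≤ e ∧ e ≤ E X) ∧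
    ∑ e ∈ Finset.Icc 1 (E X), x X a e * sg1 e / e = 0 ∧
    (∀ y : ℕ → ℝ, MX (E X) (x X a) y =
      (∑ k ∈ Finset.Icc 1 (KA ε₂ X), a k * Um k y) * R X y) ∧
    ∀ m : ℕ, 1 ≤ m → m ≤ m₀ → smooth (zz X) m →
      WW (E X) (wX (E X) (x X a)) m = Ph (KA ε₂ X) a m
  typ : ∀ b : ℝ, 0 < b → ∀ ε : ℝ, 0 < ε → ∃ X₀ : ℕ, ∀ X : ℕ,
    X₀ ≤ X → P X → ∀ (N : ℕ) [Fact N.Prime], X ≤ 2 * N → N ≤ 4 * X →
    ∀ {ι : Type} [Fintype ι] (f : ι → S2 N), Function.Injective f → (∀ i, IsNew (f i)) →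
    ∀ t : Finset ι, (∀ i ∈ t, Real.log X ^ b < |R X (la (f i))|) → ∑ i ∈ t, om (f i) ≤ ε

/-- for every prime level of size `X`, `P X`, there is a mollifier for which the second moment is
at most `2 / q` times the norm of the smooth coefficients -/
def QData (q : ℝ) (C₀ C₁ : ℕ) (P : ℕ → Prop) : Prop :=
  ∀ e C : ℝ, 0 < e → 0 < C → ∃ (T : ℝ) (ρ : ℝ → ℝ) (B₀ : ℕ) (b ε₂ : ℝ) (E : ℕ → ℕ)
    (x : ℕ → (ℕ → ℝ) → ℕ → ℝ) (R : ℕ → (ℕ → ℝ) → ℝ),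
    KerL T ρ ∧ 1 + T ^ 2 ≤ (B₀ : ℝ) ∧ 0 ≤ b ∧ b ≤ 2 / q + e ∧ 0 < ε₂ ∧ MolOp C₀ C₁ ε₂ P E x R ∧
    ∃ X₀ : ℕ, ∀ X : ℕ, X₀ ≤ X → P X → ∀ a : ℕ → ℝ,
      Sht (zz X) (KA ε₂ X) a → (∀ k : ℕ, |a k| * Real.sqrt k ≤ Real.log X ^ C₀ * tau k ^ C₁) →
      cn (zz X) (KA ε₂ X) a ≤ C → ∀ N : ℕ, N.Prime → X ≤ 2 * N → N ≤ 4 * X →
        QN ρ T B₀ (E X) (x X a) N ≤ b * cn (zz X) (KA ε₂ X) a + e

/-- the linear term -/
theorem hm_lin2 {z A m₀ : ℕ} {a s : ℕ → ℝ} (ha : ∀ k, a k ≠ 0 → smooth z k ∧ k ≤ A)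
    (hs : ∀ m, s m ≠ 0 → 1 ≤ m ∧ m ≤ m₀ ∧ smooth z m) {E : ℕ} {x : ℕ → ℝ}
    (hWW : ∀ m, 1 ≤ m → m ≤ m₀ → smooth z m → WW E (wX E x) m = Ph A a m) :
    (∀ m, s m ≠ 0 → |WW E (wX E x) m| ≤ Real.sqrt m * (|s m| + Real.sqrt (cd z A a s))) ∧
    |∑ m ∈ Finset.Icc 1 m₀, s m * WW E (wX E x) m / Real.sqrt m -
        ∑ m ∈ Finset.Icc 1 m₀, s m ^ 2| ≤
      Real.sqrt ((∑ m ∈ Finset.Icc 1 m₀, s m ^ 2) * cd z A a s) := by
  classical
  have hcdS : Summable (fun m : ℕ => if smooth z m then (Ph A a m / Real.sqrt m - s m) ^ 2 else 0) := by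
    have h1 := (phi_al ha).1
    have h2 : Summable (fun m : ℕ => s m ^ 2) := by
      refine summable_of_ne_finset_zero (s := Finset.range (m₀ + 1)) fun m hm => ?_
      rw [Finset.mem_range] at hm
      have : s m = 0 := by
        by_contra h
        have := (hs m h).2.1
        omega
      rw [this]
      norm_num
    refine Summable.of_nonneg_of_le (fun m => ?_) (fun m => ?_) ((h1.mul_left 2).add (h2.mul_left 2))
    · split_ifs <;> positivity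
    · by_cases h : smooth z m
      · simp only [if_pos h]
        have e1 : Ph A a m ^ 2 / m = (Ph A a m / Real.sqrt m) ^ 2 := by
          rw [div_pow, Real.sq_sqrt (Nat.cast_nonneg m)]
        rw [e1]
        nlinarith [sq_nonneg (Ph A a m / Real.sqrt m + s m)]
      · simp only [if_neg h]
        have := sq_nonneg (s m)
        linarith
  have hcd0 : 0 ≤ cd z A a s := tsum_nonneg fun m => by split_ifs <;> positivity
  have hone : ∀ m, smooth z m → (Ph A a m / Real.sqrt m - s m) ^ 2 ≤ cd z A a s := by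
    intro m hm
    have := hcdS.le_tsum m (fun j _ => by split_ifs <;> positivity)
    rw [if_pos hm] at this
    exact this
  refine ⟨?_, ?_⟩
  · intro m hm
    obtain ⟨h1, h1', h2⟩ := hs m hm
    rw [hWW m h1 h1' h2]
    have hm0 : (0 : ℝ) < m := by exact_mod_cast h1
    have hsm : 0 < Real.sqrt m := Real.sqrt_pos.mpr hm0
    have h3 : |Ph A a m / Real.sqrt m - s m| ≤ Real.sqrt (cd z A a s) :=
      Real.abs_le_sqrt (hone m h2)
    have h4 : |Ph A a m / Real.sqrt m| ≤ |s m| + Real.sqrt (cd z A a s) := by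
      have := abs_sub_abs_le_abs_sub (Ph A a m / Real.sqrt m) (s m)
      linarith
    rw [abs_div, abs_of_pos hsm, div_le_iff₀ hsm] at h4
    linarith
  · set t : ℕ → ℝ := fun m => if smooth z m then Ph A a m / Real.sqrt m - s m else 0 with ht
    have ht2 : ∑ m ∈ Finset.Icc 1 m₀, t m ^ 2 ≤ cd z A a s := by
      have e1 : ∀ m ∈ Finset.Icc 1 m₀, t m ^ 2 =
          if smooth z m then (Ph A a m / Real.sqrt m - s m) ^ 2 else 0 := by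
        intro m _
        simp only [ht]
        split_ifs
        · rfl
        · norm_num
      rw [Finset.sum_congr rfl e1]
      unfold cd
      refine hcdS.sum_le_tsum _ fun m _ => ?_
      split_ifs <;> positivity
    have hterm : ∑ m ∈ Finset.Icc 1 m₀, s m * WW E (wX E x) m / Real.sqrt m -
        ∑ m ∈ Finset.Icc 1 m₀, s m ^ 2 = ∑ m ∈ Finset.Icc 1 m₀, s m * t m := by
      rw [← Finset.sum_sub_distrib]
      refine Finset.sum_congr rfl fun m hm => ?_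
      by_cases h : s m = 0
      · rw [h]; ring
      · obtain ⟨h1, h1', h2⟩ := hs m h
        rw [hWW m h1 h1' h2]
        simp only [ht, if_pos h2]
        ring
    rw [hterm]
    apply Real.abs_le_sqrt
    calc (∑ m ∈ Finset.Icc 1 m₀, s m * t m) ^ 2
        ≤ (∑ m ∈ Finset.Icc 1 m₀, s m ^ 2) * ∑ m ∈ Finset.Icc 1 m₀, t m ^ 2 :=
          Finset.sum_mul_sq_le_sq_mul_sq _ _ _
      _ ≤ (∑ m ∈ Finset.Icc 1 m₀, s m ^ 2) * cd z A a s :=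
          mul_le_mul_of_nonneg_left ht2 (Finset.sum_nonneg fun m _ => sq_nonneg _)

/-- the harmonic average at every prime level of size `X`, `P X` -/
theorem gl_abs : ∃ C₀ C₁ : ℕ, ∀ q : ℝ, 1 / 2 ≤ q → q ≤ 1 → ∀ P : ℕ → Prop, QData q C₀ C₁ P →
    ∀ (A : Finset ℕ) (c : ℕ → ℝ), (∀ a ∈ A, 1 ≤ a) → (∀ a, 0 ≤ c a) → ∀ ε : ℝ, 0 < ε →
    ∀ D : ℝ, 1 / 2 < D → ∃ X₀ : ℕ, ∀ X : ℕ, X₀ ≤ X → P X →
      ∀ (N : ℕ) [Fact N.Prime], X ≤ 2 * N → N ≤ 4 * X →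
        ∀ {ι : Type} [Fintype ι] (f : ι → S2 N), AllNew f → ∃ t : Finset ι,
          (∀ i ∈ t, co (f i) N = 1 ∧ 1 / Real.log N ^ D ≤ ‖Lh (f i)‖) ∧
          1 / 2 * (q * ∑ a ∈ A, c a) - ε ≤ ∑ i ∈ t, om (f i) * Hd A c (la (f i)) := by
  obtain ⟨A₁, C₀, C₁, hA₁, hsp⟩ := sp_multR
  refine ⟨C₀, C₁, fun q hq1 hq2 P hQD A c hA hc ε hε D hD => ?_⟩
  classical
  have hpi := Real.pi_pos
  have h2q : 2 / q ≤ 4 := by
    rw [div_le_iff₀ (by linarith)]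
    linarith
  obtain ⟨h₀, hh₀⟩ : ∃ h₀ : ℝ, h₀ = ∑ a ∈ A, c a := ⟨_, rfl⟩
  have hh0 : 0 ≤ h₀ := by rw [hh₀]; exact Finset.sum_nonneg fun a _ => hc a
  obtain ⟨B, hB⟩ : ∃ B : ℝ, B = h₀ + 1 := ⟨_, rfl⟩
  have hB1 : 1 ≤ B := by linarith
  -- small parameters
  obtain ⟨ε', hε0, hεε, hε1⟩ : ∃ ε' : ℝ, 0 < ε' ∧ ε' ≤ ε / 8 ∧ ε' ≤ 1 :=
    ⟨min ε 1 / 8, by positivity, by have := min_le_left ε 1; linarith,
      by have := min_le_right ε 1; linarith⟩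
  obtain ⟨e, he0, hse⟩ : ∃ e : ℝ, 0 < e ∧ Real.sqrt e = ε' / (400 * B) :=
    ⟨(ε' / (400 * B)) ^ 2, by positivity, Real.sqrt_sq (by positivity)⟩
  have hse1 : Real.sqrt e ≤ 1 := by
    rw [hse, div_le_one (by positivity)]
    linarith
  have he1 : e ≤ 1 := by
    have h2 : e = Real.sqrt e ^ 2 := (Real.sq_sqrt he0.le).symm
    rw [h2]
    exact pow_le_one₀ (Real.sqrt_nonneg _) hse1
  obtain ⟨κ', hκ'0, hκ'⟩ : ∃ κ' : ℝ, 0 < κ' ∧ κ' ≤ ε' / (16 * B) :=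
    ⟨ε' / (16 * B), by positivity, le_rfl⟩
  obtain ⟨C₀', hC₀'⟩ : ∃ C : ℝ, C = (Real.sqrt B + 1) ^ 2 := ⟨_, rfl⟩
  have hC₀'0 : 0 < C₀' := by rw [hC₀']; positivity
  -- the data
  obtain ⟨T, ρ, B₀, b, ε₂, Ef, xf, Rf, hρ, hB₀, hb0, hb, hε₂0, hmol, X₄, hX₄⟩ := hQD (e / 2) C₀'
    (by positivity) hC₀'0
  have hb : b ≤ 2 / q + e := by linarith
  obtain ⟨Cg, hCg1, hgeo⟩ := geo_main hρ hB₀
  obtain ⟨τ, hτ0, hτ⟩ : ∃ τ : ℝ, 0 < τ ∧ (5 * C₀' + 3) / (2 * τ) ≤ e / 8 := by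
    refine ⟨4 * (5 * C₀' + 3) / e, by positivity, le_of_eq ?_⟩
    field_simp
    norm_num
  obtain ⟨d, hd0, hdτ, hdε⟩ : ∃ d : ℝ, 0 < d ∧ τ * d / 2 ≤ e / 8 ∧ d ≤ ε' := by
    refine ⟨min (e / (4 * τ)) ε', lt_min (by positivity) hε0, ?_, min_le_right _ _⟩
    have h2 := mul_le_mul_of_nonneg_left (min_le_left (e / (4 * τ)) ε') hτ0.le
    have h3 : τ * (e / (4 * τ)) = e / 4 := by field_simp
    rw [h3] at h2
    linarith
  obtain ⟨I, m₀, s, hIp, hm₀, hs, hsd, C₄, N₁, hC₄, hpoly⟩ := poly_data A c hA hc hd0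
  rw [← hh₀] at hsd
  obtain ⟨x, hx⟩ : ∃ x : ℝ, x = ∑ m ∈ Finset.Icc 1 m₀, s m ^ 2 := ⟨_, rfl⟩
  have hx0 : 0 ≤ x := by rw [hx]; exact Finset.sum_nonneg fun m _ => sq_nonneg _
  rw [← hx] at hsd
  have hxB : x ≤ B := by
    have := (abs_le.mp hsd).2
    linarith
  obtain ⟨e₂, he₂0, he₂e, he₂x⟩ : ∃ e₂ : ℝ, 0 < e₂ ∧ e₂ ≤ e ∧ Real.sqrt (x * e₂) ≤ e / 4 := by
    refine ⟨min e (e ^ 2 / (16 * B)), lt_min he0 (by positivity), min_le_left _ _, ?_⟩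
    apply Real.sqrt_le_iff.mpr
    refine ⟨by positivity, ?_⟩
    calc x * min e (e ^ 2 / (16 * B)) ≤ B * (e ^ 2 / (16 * B)) :=
          mul_le_mul hxB (min_le_right _ _) (by positivity) (by linarith)
      _ = (e / 4) ^ 2 := by field_simp; norm_num
  obtain ⟨X₁, hX₁⟩ := hsp m₀ s (fun m hm => ⟨(hs m hm).1, (hs m hm).2.1⟩) ε₂ e₂ hε₂0 he₂0
  obtain ⟨X₃, hX₃⟩ := hmol.coef m₀
  -- typical sizes
  obtain ⟨et, het0, het⟩ : ∃ et : ℝ, 0 < et ∧ Real.sqrt (2 * et * C₄) ≤ ε' := by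
    refine ⟨ε' ^ 2 / (2 * (C₄ + 1)), by positivity, ?_⟩
    apply Real.sqrt_le_iff.mpr
    refine ⟨hε0.le, ?_⟩
    have h2 : 2 * (ε' ^ 2 / (2 * (C₄ + 1))) * C₄ = ε' ^ 2 * (C₄ / (C₄ + 1)) := by
      field_simp
    rw [h2]
    have h3 : C₄ / (C₄ + 1) ≤ 1 := by
      rw [div_le_one (by positivity)]
      linarith
    calc ε' ^ 2 * (C₄ / (C₄ + 1)) ≤ ε' ^ 2 * 1 := by gcongr
      _ = ε' ^ 2 := mul_one _
  obtain ⟨a₁, ha₁, ha₁D⟩ : ∃ a₁ : ℝ, 1 / 2 < a₁ ∧ a₁ < D := ⟨(1 / 2 + D) / 2, by linarith, by linarith⟩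
  obtain ⟨a₂, ha₂, ha₂D⟩ : ∃ a₂ : ℝ, 0 < a₂ ∧ 0 < D - a₁ - a₂ :=
    ⟨(D - a₁) / 2, by linarith, by linarith⟩
  obtain ⟨X₅, hX₅⟩ := hmol.typ a₂ ha₂ et het0
  obtain ⟨X₆, hX₆⟩ := typ_b_sh hA₁ ha₁ het0
  -- sizes
  obtain ⟨Kc, hKc⟩ : ∃ Kc : ℝ, Kc = τ * ∑ m ∈ Finset.Icc 1 m₀, |s m| * ((|s m| + 1) * m) +
      τ ^ 2 * ∑ m ∈ Finset.Icc 1 m₀, s m ^ 2 * m := ⟨_, rfl⟩
  have hKc0 : 0 ≤ Kc := by
    rw [hKc]
    have h2 : 0 ≤ ∑ m ∈ Finset.Icc 1 m₀, |s m| * ((|s m| + 1) * m) :=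
      Finset.sum_nonneg fun m _ => by positivity
    have h3 : 0 ≤ ∑ m ∈ Finset.Icc 1 m₀, s m ^ 2 * m :=
      Finset.sum_nonneg fun m _ => by positivity
    positivity
  have hCg0 : 0 < Cg := by linarith
  have hm₀r : (1 : ℝ) ≤ m₀ := by exact_mod_cast hm₀
  obtain ⟨X₇, hX₇⟩ := hmol.size (1 / (Cg * m₀ + Cg * (Kc + 1)) / 2) (by positivity)
  obtain ⟨X₈, hX₈⟩ := sizes_gen (δ := 0) (by linarith) (ε := 1 / ((I.sup id : ℕ) + 1 : ℝ))
    (by positivity)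
  have hl : Tendsto (fun N : ℕ => Real.log (N : ℝ)) atTop atTop :=
    Real.tendsto_log_atTop.comp tendsto_natCast_atTop_atTop
  obtain ⟨X₉, hX₉⟩ := Filter.eventually_atTop.mp
    ((hl.eventually_ge_atTop (max (2 * Real.log 2) 1)).and
      (((tendsto_rpow_atTop ha₂D).comp hl).eventually_ge_atTop (2 ^ D / κ')))
  refine ⟨2 * N₁ + X₁ + X₃ + X₄ + X₅ + X₆ + X₇ + X₈ + X₉ + 4, fun X hX hPX => ?_⟩
  obtain ⟨a, ha, haS, hacd, hacn, hapt⟩ := hX₁ X (by omega)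
  obtain ⟨hsupp, hzero, hmx, hww⟩ := hX₃ X (by omega) hPX a ha hapt
  obtain ⟨hz3, hz2, -, -, hlz, -⟩ := hX₈ X (by omega)
  obtain ⟨hE1', hEc⟩ := hX₇ X (by omega)
  obtain ⟨hlX, hlX3⟩ := hX₉ X (by omega)
  have hlX1 : 2 * Real.log 2 ≤ Real.log X := (le_max_left _ _).trans hlX
  have hlX2 : 1 ≤ Real.log X := (le_max_right _ _).trans hlX
  intro N _ hXN hNX ι _ f hf
  have hNp : N.Prime := Fact.out
  have hmain' := fun hC => hX₄ X (by omega) hPX a ha hapt hC N hNp hXN hNX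
  obtain ⟨E, hE⟩ : ∃ E : ℕ, E = Ef X := ⟨_, rfl⟩
  obtain ⟨xv, hxv⟩ : ∃ xv : ℕ → ℝ, xv = xf X a := ⟨_, rfl⟩
  obtain ⟨Rv, hRv⟩ : ∃ Rv : (ℕ → ℝ) → ℝ, Rv = Rf X := ⟨_, rfl⟩
  rw [← hE] at hE1' hEc
  rw [← hE, ← hxv] at hsupp hzero
  rw [← hE, ← hxv] at hmain'
  simp only [← hE, ← hxv, ← hRv] at hmx
  simp only [← hE, ← hxv] at hww
  -- smoothness of the support
  have hsm : ∀ m, s m ≠ 0 → 1 ≤ m ∧ m ≤ m₀ ∧ smooth (zz X) m := by
    intro m hm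
    obtain ⟨h2, h3, h4⟩ := hs m hm
    refine ⟨h2, h3, by omega, fun p hp hpm => ?_⟩
    have h5 : p ∈ I := h4 (Nat.mem_primeFactors.mpr ⟨hp, hpm, by omega⟩)
    have h6 : p ≤ I.sup id := Finset.le_sup (f := id) h5
    have h7 : ((I.sup id : ℕ) : ℝ) + 1 ≤ Real.log (zz X) := by
      rw [one_div_one_div] at hlz
      exact hlz
    have hz0 : (0 : ℝ) < zz X := by
      have : 0 < zz X := by omega
      exact_mod_cast this
    have h8 : Real.log (zz X) ≤ (zz X : ℝ) - 1 := Real.log_le_sub_one_of_pos hz0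
    have h9 : ((I.sup id : ℕ) : ℝ) ≤ zz X := by linarith
    have h10 : I.sup id ≤ zz X := by exact_mod_cast h9
    exact h6.trans h10
  obtain ⟨hWW, hlin⟩ := hm_lin2 ha.sup hsm hww
  rw [← hx] at hlin
  have hcd0 : 0 ≤ cd (zz X) (KA ε₂ X) a s := tsum_nonneg fun m => by split_ifs <;> positivity
  have hcn0 : 0 ≤ cn (zz X) (KA ε₂ X) a := tsum_nonneg fun m => by split_ifs <;> positivity
  have hv : Real.sqrt (cd (zz X) (KA ε₂ X) a s) ≤ 1 :=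
    (Real.sqrt_le_sqrt (hacd.trans he₂e)).trans hse1
  rw [← hx] at hacn
  have hcn1 : Real.sqrt (cn (zz X) (KA ε₂ X) a) ≤ Real.sqrt x + Real.sqrt e :=
    hacn.trans (by have := Real.sqrt_le_sqrt he₂e; linarith)
  have hcnC : cn (zz X) (KA ε₂ X) a ≤ C₀' := by
    calc cn (zz X) (KA ε₂ X) a = Real.sqrt (cn (zz X) (KA ε₂ X) a) ^ 2 := (Real.sq_sqrt hcn0).symm
      _ ≤ (Real.sqrt B + 1) ^ 2 := by
        apply pow_le_pow_left₀ (Real.sqrt_nonneg _)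
        have := Real.sqrt_le_sqrt hxB
        linarith
      _ = C₀' := hC₀'.symm
  obtain ⟨cnv, hcnv⟩ : ∃ cnv : ℝ, cnv = cn (zz X) (KA ε₂ X) a := ⟨_, rfl⟩
  have hQN : QN ρ T B₀ E xv N ≤ b * cnv + e := by
    have h2 := hmain' hcnC
    rw [← hcnv] at h2
    linarith
  rw [← hcnv] at hcn0 hcn1 hcnC
  have hQN5 : b * cnv + e ≤ 5 * C₀' + 1 := by
    have h2 : b ≤ 5 := by linarith
    have h3 : b * cnv ≤ 5 * C₀' := mul_le_mul h2 hcnC hcn0 (by norm_num)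
    linarith
  -- the length
  have hN0 : (0 : ℝ) < N := by exact_mod_cast hNp.pos
  have hlen : (E : ℝ) ≤ 1 / (Cg * m₀ + Cg * (Kc + 1)) * N := by
    have h2 : (X : ℝ) ≤ 2 * N := by exact_mod_cast hXN
    have h3 : 0 ≤ 1 / (Cg * m₀ + Cg * (Kc + 1)) / 2 := by positivity
    calc (E : ℝ) ≤ 1 / (Cg * m₀ + Cg * (Kc + 1)) / 2 * X := hEc
      _ ≤ 1 / (Cg * m₀ + Cg * (Kc + 1)) / 2 * (2 * N) := mul_le_mul_of_nonneg_left h2 h3
      _ = _ := by ring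
  have hlen1 : Cg * m₀ * E ≤ N := by
    have h2 : (E : ℝ) * (Cg * m₀ + Cg * (Kc + 1)) ≤ N := by
      rw [div_mul_eq_mul_div, one_mul, le_div_iff₀ (by positivity)] at hlen
      exact hlen
    have h3 : 0 ≤ (E : ℝ) * (Cg * (Kc + 1)) := by positivity
    calc Cg * m₀ * E = (E : ℝ) * (Cg * m₀ + Cg * (Kc + 1)) - (E : ℝ) * (Cg * (Kc + 1)) := by ring
      _ ≤ N := by linarith
  have hlen2 : Cg * ((E : ℝ) / N) * Kc ≤ 1 := by
    have h2 : (E : ℝ) * (Cg * m₀ + Cg * (Kc + 1)) ≤ N := by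
      rw [div_mul_eq_mul_div, one_mul, le_div_iff₀ (by positivity)] at hlen
      exact hlen
    have h3 : 0 ≤ (E : ℝ) * (Cg * m₀ + Cg) := by positivity
    have h4 : Cg * ((E : ℝ) / N) * Kc = (E * (Cg * Kc)) / N := by ring
    rw [h4, div_le_one hN0]
    calc (E : ℝ) * (Cg * Kc) = (E : ℝ) * (Cg * m₀ + Cg * (Kc + 1)) - (E : ℝ) * (Cg * m₀ + Cg) := by
          ring
      _ ≤ N := by linarith
  have hi : Function.Injective f := hf.1
  have hn : ∀ i, IsNew (f i) := fun i => (hf.2 (f i)).mpr ⟨i, rfl⟩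
  have hom : ∀ i, 0 ≤ om (f i) := fun i => (fid_om (hn i)).2.1.le
  -- the dual norm
  have hgeo' := hgeo N E m₀ hE1' hm₀ hlen1 xv hsupp hzero f hi hn s
    (fun m hm => ⟨(hs m hm).1, (hs m hm).2.1⟩)
  obtain ⟨F, hF⟩ : ∃ F : ι → ℝ, F = fun i => (Lh (f i)).re * MX E xv (la (f i)) := ⟨_, rfl⟩
  obtain ⟨S, hS⟩ : ∃ S : ι → ℝ, S = fun i => ∑ m ∈ Finset.Icc 1 m₀, s m * Um m (la (f i)) :=
    ⟨_, rfl⟩
  obtain ⟨hp1, hp2, hp3, hp4⟩ := hpoly N (by omega) f hf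
  have hSi : ∀ i, ∑ m ∈ Finset.Icc 1 m₀, s m * Um m (la (f i)) = S i := fun i => by rw [hS]
  have hFi : ∀ i, (Lh (f i)).re * MX E xv (la (f i)) = F i := fun i => by rw [hF]
  simp only [hSi] at hp1 hp2 hp3 hp4
  simp only [hSi, hFi] at hgeo'
  rw [← hx] at hp2 hp3
  have h2nd : ∑ i, om (f i) * F i ^ 2 ≤ b * cnv + e := by
    have h2 := hgeo' 0
    simp only [zero_mul, add_zero, abs_zero, mul_zero, ne_eq, OfNat.ofNat_ne_zero,
      not_false_eq_true, zero_pow] at h2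
    exact h2.trans hQN
  have h1st : x - e ≤ ∑ i, om (f i) * (F i * S i) := by
    have h2 := hgeo' (-τ)
    rw [← hx] at h2
    have h3 := gl_err (m₀ := m₀) (s := s) (W := fun m => WW E (wX E xv) m)
      (v := Real.sqrt (cd (zz X) (KA ε₂ X) a s)) (τ := τ) (r := (E : ℝ) / N) (Cg := Cg) hτ0.le
      (by positivity) hCg0.le hv hWW (by rw [← hKc]; exact hlen2)
    have h4 := hm_first (fun i => om (f i)) F S hom (Q := b * cnv + e)
      (l := ∑ m ∈ Finset.Icc 1 m₀, s m * WW E (wX E xv) m / Real.sqrt m) (s₂ := x) (e := 1)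
      (dd := d) hτ0 (by
        refine h2.trans ?_
        have h5 := add_le_add hQN h3
        linarith) hp2
    have h5 : (b * cnv + e + 1) / (2 * τ) ≤ e / 8 := by
      refine le_trans ?_ hτ
      apply div_le_div_of_nonneg_right _ (by positivity)
      linarith
    have h6 : |∑ m ∈ Finset.Icc 1 m₀, s m * WW E (wX E xv) m / Real.sqrt m - x| ≤ e / 4 := by
      refine hlin.trans ((Real.sqrt_le_sqrt ?_).trans he₂x)
      exact mul_le_mul_of_nonneg_left hacd hx0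
    have h7 := (abs_le.mp h6).1
    linarith
  obtain ⟨t, ht, htS⟩ := cr_core (fun i => om (f i)) F S hom (q := q) (x := x) (e := e) (B := B)
    (ε := ε') (b := b) (κ := κ') (cn := cnv) hq1 hq2 hx0 hxB hB1 hε0 hε1 he0 hse.le hb0 hb hκ'0
    hκ' hcn1 hcn0 h1st h2nd hp3
  -- atypical forms
  obtain ⟨u₁, hu₁⟩ : ∃ u₁ : Finset ι, u₁ = Finset.univ.filter
    (fun i => Real.log X ^ a₁ < |Bz A₁ X (la (f i))|) := ⟨_, rfl⟩
  obtain ⟨u₂, hu₂⟩ : ∃ u₂ : Finset ι, u₂ = Finset.univ.filter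
    (fun i => Real.log X ^ a₂ < |Rv (la (f i))|) := ⟨_, rfl⟩
  have hb1 : ∑ i ∈ u₁, om (f i) ≤ et := hX₆ X (by omega) N hXN f hi hn u₁ (fun i hi' => by
    rw [hu₁, Finset.mem_filter] at hi'; exact hi'.2)
  have hb2 : ∑ i ∈ u₂, om (f i) ≤ et := hX₅ X (by omega) hPX N hXN hNX f hi hn u₂ (fun i hi' => by
    rw [hu₂, Finset.mem_filter] at hi'
    rw [← hRv]
    exact hi'.2)
  have hb3 : ∑ i ∈ u₁ ∪ u₂, om (f i) ≤ 2 * et := by
    have h2 : ∑ i ∈ u₁ ∪ u₂, om (f i) ≤ ∑ i ∈ u₁, om (f i) + ∑ i ∈ u₂, om (f i) := by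
      rw [← Finset.sum_union_inter]
      have : 0 ≤ ∑ i ∈ u₁ ∩ u₂, om (f i) := Finset.sum_nonneg fun i _ => hom i
      linarith
    linarith
  have hfin := cr_fin (fun i => om (f i)) S (fun i => Hd A c (la (f i))) hom
    (fun i => Finset.sum_nonneg fun a _ => mul_nonneg (hc a) (sq_nonneg _)) (d := ε')
    (e := 2 * et) (C := C₄) (by positivity) (hp1.trans hdε) hp4 t (u₁ ∪ u₂) hb3 htS het
  refine ⟨t \ (u₁ ∪ u₂), ?_, ?_⟩
  · intro i hi'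
    rw [Finset.mem_sdiff, Finset.mem_union] at hi'
    obtain ⟨hit, hiu⟩ := hi'
    push Not at hiu
    obtain ⟨h2, h3⟩ := ht i hit
    have hS0 : 0 < |S i| := abs_pos.mpr h3
    have hF0 : F i ≠ 0 := by
      intro h4
      rw [h4, abs_zero] at h2
      have := mul_pos hκ'0 hS0
      linarith
    have hco : co (f i) N = 1 := by
      by_contra h4
      apply hF0
      rw [← hFi, lh_odd (hn i) h4]
      simp
    refine ⟨hco, ?_⟩
    have h4 : |Bz A₁ X (la (f i))| ≤ Real.log X ^ a₁ := by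
      by_contra h
      push Not at h
      exact hiu.1 (by rw [hu₁, Finset.mem_filter]; exact ⟨Finset.mem_univ _, h⟩)
    have h5 : |Rv (la (f i))| ≤ Real.log X ^ a₂ := by
      by_contra h
      push Not at h
      exact hiu.2 (by rw [hu₂, Finset.mem_filter]; exact ⟨Finset.mem_univ _, h⟩)
    have h6 : |F i| = |(Lh (f i)).re| * |Bz A₁ X (la (f i))| *
        |Rv (la (f i))| * |S i| := by
      rw [← hFi, hmx, haS, hSi, abs_mul, abs_mul, abs_mul]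
      ring
    have h7 : κ' ≤ ‖Lh (f i)‖ * Real.log X ^ a₁ * Real.log X ^ a₂ := by
      have h8 : κ' * |S i| ≤ ‖Lh (f i)‖ * Real.log X ^ a₁ * Real.log X ^ a₂ * |S i| := by
        rw [h6] at h2
        refine h2.trans ?_
        gcongr
        exact Complex.abs_re_le_norm _
      exact le_of_mul_le_mul_right h8 hS0
    have hlN : Real.log X ≤ 2 * Real.log N := by
      have hX0 : (0 : ℝ) < X := by
        have : 0 < X := by omega
        exact_mod_cast this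
      have h8 : (X : ℝ) ≤ 2 * N := by exact_mod_cast hXN
      have h9 : Real.log X ≤ Real.log 2 + Real.log N := by
        rw [← Real.log_mul (by norm_num) hN0.ne']
        exact Real.log_le_log hX0 h8
      linarith
    exact gl_thr (by linarith) hκ'0 hlX2 hlN hlX3 (norm_nonneg _) h7
  · have h2 := (abs_le.mp hsd).1
    have h3 : q * h₀ - q * x ≤ ε' := by
      have h4 : h₀ - x ≤ ε' := by linarith
      have h5 : q * (h₀ - x) ≤ ε' := by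
        by_cases h6 : 0 ≤ h₀ - x
        · calc q * (h₀ - x) ≤ 1 * (h₀ - x) := mul_le_mul_of_nonneg_right hq2 h6
            _ ≤ ε' := by linarith
        · push Not at h6
          have : q * (h₀ - x) ≤ 0 := mul_nonpos_of_nonneg_of_nonpos (by linarith) h6.le
          linarith
      linarith
    rw [← hh₀]
    linarith

end Pool.Agent.LSP
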