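import Pool.Agent.Lib_helper68.LSP2.QD

/-! LSP2, part F: every prime level of a clean range. -/

set_option autoImplicit false

namespace Pool.Agent.LSP

open Pool.Agent.LEV Pool.Agent.LVB Pool.Agent.KSL
open Pool.Agent.FG61 (mu phi cc ff AA Lam)
open Complex MeasureTheory Filter Topology UpperHalfPlane ModularGroup ProbabilityTheory
open scoped MatrixGroups Modular ENNReal ModularForm ComplexConjugate ContDiff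

/-- more than `q - δ` of the central values are large at every prime level of size `X`, `P X` -/
theorem level_abs : ∃ C₀ C₁ : ℕ, ∀ q : ℝ, 1 / 2 ≤ q → q ≤ 1 → ∀ P : ℕ → Prop, QData q C₀ C₁ P →
    ∀ δ : ℝ, 0 < δ → ∀ D : ℝ, 1 / 2 < D → ∃ X₀ : ℕ, ∀ X : ℕ, X₀ ≤ X → P X →
      ∀ (N : ℕ) [Fact N.Prime], X ≤ 2 * N → N ≤ 4 * X →
        (q - δ) * (N / 24) ≤
          ({f : S2 N | (IsNew f ∧ co f N = 1) ∧ 1 / Real.log N ^ D ≤ ‖Lh f‖}.ncard : ℝ) := by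
  obtain ⟨C₀, C₁, hgl⟩ := gl_abs
  refine ⟨C₀, C₁, fun q hq1 hq2 P hQD δ hδ D hD => ?_⟩
  obtain ⟨A, w, ε₁, N₀, hA, hw, hε₁, hnat⟩ := nat_gen (q := q) (by linarith) hq2 hδ
  obtain ⟨X₀, hX₀⟩ := hgl q hq1 hq2 P hQD A w hA hw ε₁ hε₁ D hD
  refine ⟨X₀ + 2 * N₀, fun X hX hPX N _ hXN hNX => ?_⟩
  have h4 := hnat N (by omega) (fun f => 1 / Real.log N ^ D ≤ ‖Lh f‖)
    (hX₀ X (by omega) hPX N hXN hNX)
  calc (q - δ) * ((N : ℝ) / 24) = (N : ℝ) / 24 * (q - δ) := by ring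
    _ ≤ _ := h4

/-- **part F2 for every prime level** -/
theorem every_level_of (hq : M2Q) (hcr : M2C) (hmn : M2M) {c₁ : ℝ} (h1 : 0 < c₁) : ∃ κ c : ℝ, 0 < κ ∧ κ ≤ 1 ∧ 0 < c ∧ c ≤ 1 ∧
    ∀ D : ℝ, 1 / 2 < D → ∃ X₀ : ℕ, ∀ X : ℕ, X₀ ≤ X → GA.Good c₁ ⌊(X : ℝ) ^ κ⌋₊ →
      ∀ (N : ℕ) [Fact N.Prime], X ≤ 2 * N → N ≤ 4 * X → (1 / 2 + c) * (N / 24) ≤
        ({f : S2 N | (IsNew f ∧ co f N = 1) ∧ 1 / Real.log N ^ D ≤ ‖Lh f‖}.ncard : ℝ) := by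
  obtain ⟨C₀, C₁, hlev⟩ := level_abs
  obtain ⟨κ, q, hκ0, hκ1, hq1, hq2, hQD⟩ := qdata_main hq hcr hmn h1 C₀ C₁
  refine ⟨κ, (q - 1 / 2) / 2, hκ0, hκ1, by linarith, by linarith, fun D hD => ?_⟩
  obtain ⟨X₀, hX₀⟩ := hlev q hq1.le hq2 _ hQD ((q - 1 / 2) / 2) (by linarith) D hD
  refine ⟨X₀, fun X hX hgood N _ hXN hNX => ?_⟩
  have h2 := hX₀ X hX hgood N hXN hNX
  have h3 : q - (q - 1 / 2) / 2 = 1 / 2 + (q - 1 / 2) / 2 := by ring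
  rw [h3] at h2
  exact h2

end Pool.Agent.LSP
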