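import Pool.Agent.Lib_helper68.LSP2.LV
import Pool.Agent.Lib_helper98.HK.FinC
import Pool.Agent.Lib_helper46.LSP2.MQ4
import Pool.Agent.Lib_helper31.LSPM2.FID

/-! LSP2: more than half of the central values at every prime level of a clean range are large. -/

set_option autoImplicit false

namespace Pool.Agent.LSP

open Pool.Agent.LEV Pool.Agent.LVB Pool.Agent.KSL
open Pool.Agent.FG61 (mu phi cc ff AA Lam)

/-- the second moment at every level of a clean range -/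
theorem qdata_main' {c₁ : ℝ} (h1 : 0 < c₁) (C₀ C₁ : ℕ) :
    ∃ κ q : ℝ, 0 < κ ∧ κ ≤ 1 ∧ 1 / 2 < q ∧ q ≤ 1 ∧
      QData q C₀ C₁ (fun X => GA.Good c₁ ⌊(X : ℝ) ^ κ⌋₊) :=
  qdata_main (@m2_quad) (@m2_cross) (@m2_main_pr) h1 C₀ C₁

/-- every prime level of a clean range -/
theorem every_level {c₁ : ℝ} (h1 : 0 < c₁) : ∃ κ c : ℝ, 0 < κ ∧ κ ≤ 1 ∧ 0 < c ∧ c ≤ 1 ∧
    ∀ D : ℝ, 1 / 2 < D → ∃ X₀ : ℕ, ∀ X : ℕ, X₀ ≤ X → GA.Good c₁ ⌊(X : ℝ) ^ κ⌋₊ →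
      ∀ (N : ℕ) [Fact N.Prime], X ≤ 2 * N → N ≤ 4 * X → (1 / 2 + c) * (N / 24) ≤
        ({f : S2 N | (IsNew f ∧ co f N = 1) ∧ 1 / Real.log N ^ D ≤ ‖Lh f‖}.ncard : ℝ) :=
  every_level_of (@m2_quad) (@m2_cross) (@m2_main_pr) h1

end Pool.Agent.LSP
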