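import Pool.Agent.Lib_helper68.LSP2.LVF
import Pool.Agent.Lib_helper41.LSP25.WINF
import Pool.Agent.Lib_helper41.LSP25.QDG

/-! LSP2.5: more than half of the central values are large at every prime level for which there is
no strongly exceptional zero. -/

set_option autoImplicit false

namespace Pool.Agent.LSP

open Pool.Agent.LEV Pool.Agent.LVB Pool.Agent.KSL
open Pool.Agent.FG61 (mu phi cc ff AA Lam)

/-- the second moment at every level without a strongly exceptional zero -/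
theorem qdata_free {lam : ℝ} (hlam : 0 < lam) (C₀ C₁ : ℕ) :
    ∃ κ q : ℝ, 0 < κ ∧ κ ≤ 1 ∧ 1 / 2 < q ∧ q ≤ 1 ∧
      QData q C₀ C₁ (fun X => GA.Free (lam / Real.log X) ⌊(X : ℝ) ^ κ⌋₊) := by
  obtain ⟨κ, q, h1, h2, h3, h4, h5⟩ := qdata_gen (@m2_quad) (@m2_cross) (@m2_main_pr)
    (win_free hlam (by norm_num : (0 : ℝ) < 1 / 80) (by norm_num)) C₀ C₁
  exact ⟨1000 * κ, q, by positivity, by linarith, h3, h4, h5⟩

/-- every prime level without a strongly exceptional zero -/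
theorem free_level {lam : ℝ} (hlam : 0 < lam) : ∃ κ c : ℝ, 0 < κ ∧ κ ≤ 1 ∧ 0 < c ∧ c ≤ 1 ∧
    ∀ D : ℝ, 1 / 2 < D → ∃ X₀ : ℕ, ∀ X : ℕ, X₀ ≤ X →
      GA.Free (lam / Real.log X) ⌊(X : ℝ) ^ κ⌋₊ →
      ∀ (N : ℕ) [Fact N.Prime], X ≤ 2 * N → N ≤ 4 * X → (1 / 2 + c) * (N / 24) ≤
        ({f : S2 N | (IsNew f ∧ co f N = 1) ∧ 1 / Real.log N ^ D ≤ ‖Lh f‖}.ncard : ℝ) := by
  obtain ⟨C₀, C₁, hlev⟩ := level_abs
  obtain ⟨κ, q, hκ0, hκ1, hq1, hq2, hQD⟩ := qdata_free hlam C₀ C₁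
  refine ⟨κ, (q - 1 / 2) / 2, hκ0, hκ1, by linarith, by linarith, fun D hD => ?_⟩
  obtain ⟨X₀, hX₀⟩ := hlev q hq1.le hq2 _ hQD ((q - 1 / 2) / 2) (by linarith) D hD
  refine ⟨X₀, fun X hX hgood N _ hXN hNX => ?_⟩
  have h2 := hX₀ X hX hgood N hXN hNX
  have h3 : q - (q - 1 / 2) / 2 = 1 / 2 + (q - 1 / 2) / 2 := by ring
  rw [h3] at h2
  exact h2

end Pool.Agent.LSP
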