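import Pool.Agent.Lib_helper41.LSP2.Defs2
import Pool.Agent.Lib_helper15.LSPF.TAU

/-! LSP2, part F: scaling. -/

set_option autoImplicit false

namespace Pool.Agent.LSP

open Pool.Agent.LEV Pool.Agent.LVB Pool.Agent.KSL
open Pool.Agent.FG61 (mu phi cc ff AA Lam)
open Complex MeasureTheory Filter Topology UpperHalfPlane ModularGroup ProbabilityTheory
open scoped MatrixGroups Modular ENNReal ModularForm ComplexConjugate ContDiff

theorem sc_xX (z M K : ℕ) (μ : ℝ) (a : ℕ → ℝ) (e : ℕ) :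
    xX z M K (fun k => μ * a k) e = μ * xX z M K a e := by
  unfold xX
  split_ifs
  · rw [mul_zero]
  · ring

theorem sc_Tp (p : ℕ) (μ : ℝ) (y : ℕ → ℝ) (e : ℕ) :
    Tp p (fun k => μ * y k) e = μ * Tp p y e := by
  unfold Tp
  split_ifs
  · ring
  · ring

theorem sc_YT (P : Finset ℕ) (θ : ℕ → ℝ) (μ : ℝ) (y : ℕ → ℝ) (e : ℕ) :
    YT P θ (fun k => μ * y k) e = μ * YT P θ y e := by
  unfold YT
  rw [Finset.mul_sum]
  refine Finset.sum_congr rfl fun p _ => ?_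
  rw [sc_Tp]
  ring

theorem sc_x2 (κ v κ₁ t : ℝ) (X : ℕ) (θ : ℕ → ℝ) (μ : ℝ) (a : ℕ → ℝ) :
    x2 κ v κ₁ t X θ (fun k => μ * a k) = fun e => μ * x2 κ v κ₁ t X θ a e := by
  funext e
  unfold x2
  have h1 : y1 κ v X (fun k => μ * a k) = fun e => μ * y1 κ v X a e := by
    funext e
    unfold y1
    rw [sc_xX]
  rw [h1, sc_YT]
  unfold y0
  rw [sc_xX]
  ring

theorem sc_wX (E : ℕ) (x : ℕ → ℝ) (μ : ℝ) (q : ℕ) : wX E (fun e => μ * x e) q = μ * wX E x q := by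
  unfold wX
  rw [Finset.mul_sum]
  refine Finset.sum_congr rfl fun e _ => ?_
  ring

theorem sc_WW (E : ℕ) (x : ℕ → ℝ) (μ : ℝ) (n : ℕ) :
    WW E (wX E (fun e => μ * x e)) n = μ * WW E (wX E x) n := by
  unfold WW
  rw [Finset.mul_sum]
  refine Finset.sum_congr rfl fun q _ => ?_
  rw [sc_wX]
  ring

theorem sc_sh (ρ : ℝ → ℝ) (T : ℝ) (E : ℕ) (x : ℕ → ℝ) (μ : ℝ) (N : ℕ) :
    sh ρ T E (fun e => μ * x e) N = μ ^ 2 * sh ρ T E x N := by
  unfold sh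
  have h1 : ∀ y : ℝ, ∑' n : ℕ, (‖kh ρ ((n + 1) * y)‖ ^ 2 + ‖kh ρ (-((n + 1) * y))‖ ^ 2) *
      WW E (wX E (fun e => μ * x e)) (n + 1) ^ 2 =
      μ ^ 2 * ∑' n : ℕ, (‖kh ρ ((n + 1) * y)‖ ^ 2 + ‖kh ρ (-((n + 1) * y))‖ ^ 2) *
      WW E (wX E x) (n + 1) ^ 2 := by
    intro y
    rw [← tsum_mul_left]
    refine tsum_congr fun n => ?_
    rw [sc_WW]
    ring
  have h2 : ∑ q ∈ Finset.Icc 1 E, phi q * wX E (fun e => μ * x e) q ^ 2 *
      (Cr ρ * (2 * Real.log (yo T E) + Real.log ((N : ℝ) * (q : ℝ) ^ 2)) + Cl ρ) =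
      μ ^ 2 * ∑ q ∈ Finset.Icc 1 E, phi q * wX E x q ^ 2 *
      (Cr ρ * (2 * Real.log (yo T E) + Real.log ((N : ℝ) * (q : ℝ) ^ 2)) + Cl ρ) := by
    rw [Finset.mul_sum]
    refine Finset.sum_congr rfl fun q _ => ?_
    rw [sc_wX]
    ring
  simp only [h1]
  rw [h2, integral_const_mul]
  ring

theorem sc_CC (E : ℕ) (x : ℕ → ℝ) (μ : ℝ) (n : ℕ) :
    CC E (fun e => μ * x e) n = μ ^ 2 * CC E x n := by
  unfold CC
  rw [Finset.mul_sum]
  refine Finset.sum_congr rfl fun j _ => ?_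
  have h1 : ∑ p ∈ n.divisorsAntidiagonal, (μ * x (j * p.1)) * (μ * x (j * p.2)) / n =
      μ ^ 2 * ∑ p ∈ n.divisorsAntidiagonal, x (j * p.1) * x (j * p.2) / n := by
    rw [Finset.mul_sum]
    refine Finset.sum_congr rfl fun p _ => ?_
    ring
  rw [h1]
  ring

theorem sc_OD (ρ : ℝ → ℝ) (B E : ℕ) (x : ℕ → ℝ) (μ : ℝ) (N : ℕ) :
    OD ρ B E (fun e => μ * x e) N = μ ^ 2 * OD ρ B E x N := by
  unfold OD
  have h1 : ∑ n ∈ Finset.Icc 1 (E ^ 2), CC E (fun e => μ * x e) n *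
      ∑ g ∈ Gs B E, tau g.natAbs * tau ((n : ℤ) - g * N).natAbs * GG ρ ((g : ℝ) * N / n) =
      μ ^ 2 * ∑ n ∈ Finset.Icc 1 (E ^ 2), CC E x n *
      ∑ g ∈ Gs B E, tau g.natAbs * tau ((n : ℤ) - g * N).natAbs * GG ρ ((g : ℝ) * N / n) := by
    rw [Finset.mul_sum]
    refine Finset.sum_congr rfl fun n _ => ?_
    rw [sc_CC]
    ring
  rw [h1]
  ring

theorem sc_QN (ρ : ℝ → ℝ) (T : ℝ) (B E : ℕ) (x : ℕ → ℝ) (μ : ℝ) (N : ℕ) :
    QN ρ T B E (fun e => μ * x e) N = μ ^ 2 * QN ρ T B E x N := by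
  unfold QN
  rw [sc_sh, sc_OD]
  ring

theorem sc_MX (E : ℕ) (x : ℕ → ℝ) (μ : ℝ) (y : ℕ → ℝ) :
    MX E (fun e => μ * x e) y = μ * MX E x y := by
  unfold MX
  rw [Finset.mul_sum]
  refine Finset.sum_congr rfl fun e _ => ?_
  ring

theorem sc_Ph (A : ℕ) (a : ℕ → ℝ) (μ : ℝ) (n : ℕ) :
    Ph A (fun k => μ * a k) n = μ * Ph A a n := by
  unfold Ph
  rw [Finset.mul_sum]
  refine Finset.sum_congr rfl fun e _ => ?_
  ring

theorem sc_cn (z A : ℕ) (a : ℕ → ℝ) (μ : ℝ) :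
    cn z A (fun k => μ * a k) = μ ^ 2 * cn z A a := by
  unfold cn
  rw [← tsum_mul_left]
  refine tsum_congr fun n => ?_
  split_ifs
  · rw [sc_Ph]
    ring
  · rw [mul_zero]

/-- the scaled coefficients are admissible -/
theorem sc_sht (C₂ C₃ : ℕ) {ε₂ : ℝ} (hε₂ : 0 < ε₂) {Λ : ℝ} (hΛ : 1 ≤ Λ) : ∃ X₀ : ℕ, ∀ X : ℕ,
    X₀ ≤ X → ∀ a : ℕ → ℝ, Sht (zz X) (KA ε₂ X) a →
    (∀ k : ℕ, |a k| * Real.sqrt k ≤ Real.log X ^ C₂ * tau k ^ C₃) →
    ∀ μ : ℝ, 0 ≤ μ → μ ≤ Λ → Sht (zz X) (KA ε₂ X) (fun k => μ * a k) ∧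
      ∀ k : ℕ, |μ * a k| * Real.sqrt k ≤ Real.log X ^ (C₂ + 1) * tau k ^ C₃ := by
  obtain ⟨Ct, hCt1, hCt⟩ := LSPP.tau_le_pr (ε := 1 / (4 * (C₃ + 1))) (by positivity)
  have hl : Tendsto (fun N : ℕ => Real.log (N : ℝ)) atTop atTop :=
    Real.tendsto_log_atTop.comp tendsto_natCast_atTop_atTop
  have hlim : Tendsto (fun N : ℕ => Real.log (N : ℝ) ^ (C₂ : ℝ) / (N : ℝ) ^ (ε₂ / 8)) atTop (𝓝 0) :=
    (isLittleO_log_rpow_rpow_atTop (C₂ : ℝ) (show 0 < ε₂ / 8 by positivity)).tendsto_div_nhds_zero.comp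
      tendsto_natCast_atTop_atTop
  obtain ⟨X₁, hX₁⟩ := Filter.eventually_atTop.mp ((hl.eventually_ge_atTop (max Λ 1)).and
    ((hlim.eventually (gt_mem_nhds (show (0 : ℝ) < 1 / (8 * Λ * Ct ^ C₃) by positivity))).and
      (((tendsto_rpow_atTop hε₂).comp (tendsto_natCast_atTop_atTop (R := ℝ))).eventually_ge_atTop 2)))
  refine ⟨X₁ + 1, fun X hX a ha hpt μ h0 h1 => ?_⟩
  obtain ⟨hlog, hlim', hX2⟩ := hX₁ X (by omega)
  simp only [Function.comp] at hX2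
  have hX1 : (1 : ℝ) ≤ X := by exact_mod_cast (by omega : 1 ≤ X)
  have hX0 : (0 : ℝ) < X := by linarith
  have hlog1 : 1 ≤ Real.log X := (le_max_right _ _).trans hlog
  have hlogΛ : Λ ≤ Real.log X := (le_max_left _ _).trans hlog
  refine ⟨⟨fun k hk => ha.sup k (fun h => hk (by simp [h])), ?_⟩, fun k => ?_⟩
  · obtain ⟨A, hA⟩ : ∃ A : ℕ, A = KA ε₂ X := ⟨_, rfl⟩
    rw [← hA]
    have hAX : (A : ℝ) ≤ (X : ℝ) ^ ε₂ := by
      rw [hA]
      exact Nat.floor_le (by positivity)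
    have hAX2 : (X : ℝ) ^ ε₂ / 2 ≤ A := by
      have h2 : (X : ℝ) ^ ε₂ < A + 1 := by
        rw [hA]
        exact Nat.lt_floor_add_one _
      linarith
    have hA1 : (1 : ℝ) ≤ A := by linarith
    have hA0 : (0 : ℝ) < A := by linarith
    -- the pointwise bound
    obtain ⟨Kb, hKb⟩ : ∃ Kb : ℝ, Kb = Real.log X ^ C₂ * Ct ^ C₃ := ⟨_, rfl⟩
    have hKb0 : 0 < Kb := by rw [hKb]; positivity
    have hp : ∀ k ∈ Finset.Icc 1 A, |a k| ≤ Kb * (k : ℝ) ^ (-(1 / 4) : ℝ) := by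
      intro k hk
      rw [Finset.mem_Icc] at hk
      have hk1 : (1 : ℝ) ≤ k := by exact_mod_cast hk.1
      have hk0 : (0 : ℝ) < k := by linarith
      have h2 := hpt k
      have h3 : tau k ^ C₃ ≤ Ct ^ C₃ * (k : ℝ) ^ (1 / 4 : ℝ) := by
        calc tau k ^ C₃ ≤ (Ct * (k : ℝ) ^ (1 / (4 * (C₃ + 1)) : ℝ)) ^ C₃ := by
              refine pow_le_pow_left₀ ?_ (hCt k) _
              unfold tau
              positivity
          _ = Ct ^ C₃ * (k : ℝ) ^ (1 / (4 * (C₃ + 1)) * C₃ : ℝ) := by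
              rw [mul_pow, ← Real.rpow_mul_natCast hk0.le]
          _ ≤ Ct ^ C₃ * (k : ℝ) ^ (1 / 4 : ℝ) := by
              refine mul_le_mul_of_nonneg_left ?_ (by positivity)
              refine Real.rpow_le_rpow_of_exponent_le hk1 ?_
              rw [div_mul_eq_mul_div, div_le_div_iff₀ (by positivity) (by norm_num)]
              linarith
      have h4 : |a k| * Real.sqrt k ≤ Kb * (k : ℝ) ^ (1 / 4 : ℝ) := by
        rw [hKb]
        calc |a k| * Real.sqrt k ≤ Real.log X ^ C₂ * tau k ^ C₃ := h2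
          _ ≤ Real.log X ^ C₂ * (Ct ^ C₃ * (k : ℝ) ^ (1 / 4 : ℝ)) :=
              mul_le_mul_of_nonneg_left h3 (by positivity)
          _ = _ := by ring
      have h5 : (k : ℝ) ^ (1 / 4 : ℝ) = (k : ℝ) ^ (-(1 / 4) : ℝ) * Real.sqrt k := by
        rw [Real.sqrt_eq_rpow, ← Real.rpow_add hk0]
        norm_num
      rw [h5, ← mul_assoc] at h4
      exact le_of_mul_le_mul_right h4 (Real.sqrt_pos.mpr hk0)
    obtain ⟨w, hw⟩ : ∃ w : ℝ, w = (A : ℝ) ^ (-(1 / 8) : ℝ) := ⟨_, rfl⟩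
    have hw0 : 0 < w := by rw [hw]; positivity
    have hsum : ∑ k ∈ Finset.Icc 1 A, (k : ℝ) ^ (-(1 / 4) : ℝ) ≤ 2 * (A * w) := by
      have h2 : ∀ k ∈ Finset.Icc 1 A, (k : ℝ) ^ (-(1 / 4) : ℝ) ≤
          w + if (k : ℝ) ≤ (A : ℝ) ^ (1 / 2 : ℝ) then 1 else 0 := by
        intro k hk
        rw [Finset.mem_Icc] at hk
        have hk1 : (1 : ℝ) ≤ k := by exact_mod_cast hk.1
        split_ifs with h3
        · have h4 : (k : ℝ) ^ (-(1 / 4) : ℝ) ≤ 1 :=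
            Real.rpow_le_one_of_one_le_of_nonpos hk1 (by norm_num)
          linarith
        · push Not at h3
          rw [add_zero, hw]
          calc (k : ℝ) ^ (-(1 / 4) : ℝ) ≤ ((A : ℝ) ^ (1 / 2 : ℝ)) ^ (-(1 / 4) : ℝ) :=
                Real.rpow_le_rpow_of_nonpos (by positivity) h3.le (by norm_num)
            _ = _ := by
                rw [← Real.rpow_mul hA0.le]
                norm_num
      refine (Finset.sum_le_sum h2).trans ?_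
      rw [Finset.sum_add_distrib, Finset.sum_const, Nat.card_Icc, ← Finset.sum_filter,
        Finset.sum_const, nsmul_eq_mul, nsmul_eq_mul, mul_one]
      have h3 : (((Finset.Icc 1 A).filter (fun k : ℕ => (k : ℝ) ≤ (A : ℝ) ^ (1 / 2 : ℝ))).card : ℝ) ≤
          (A : ℝ) ^ (1 / 2 : ℝ) := by
        have h4 : (Finset.Icc 1 A).filter (fun k : ℕ => (k : ℝ) ≤ (A : ℝ) ^ (1 / 2 : ℝ)) ⊆
            Finset.Icc 1 ⌊(A : ℝ) ^ (1 / 2 : ℝ)⌋₊ := by
          intro k hk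
          rw [Finset.mem_filter, Finset.mem_Icc] at hk
          rw [Finset.mem_Icc]
          exact ⟨hk.1.1, Nat.le_floor hk.2⟩
        have h5 := Finset.card_le_card h4
        rw [Nat.card_Icc] at h5
        have h6 : (((Finset.Icc 1 A).filter
            (fun k : ℕ => (k : ℝ) ≤ (A : ℝ) ^ (1 / 2 : ℝ))).card : ℝ) ≤
            (⌊(A : ℝ) ^ (1 / 2 : ℝ)⌋₊ : ℝ) := by exact_mod_cast (by omega)
        exact h6.trans (Nat.floor_le (by positivity))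
      have h4 : (A : ℝ) ^ (1 / 2 : ℝ) ≤ A * w := by
        rw [hw]
        nth_rewrite 2 [← Real.rpow_one (A : ℝ)]
        rw [← Real.rpow_add hA0]
        exact Real.rpow_le_rpow_of_exponent_le hA1 (by norm_num)
      have h5 : ((A + 1 - 1 : ℕ) : ℝ) = A := by simp
      rw [h5]
      linarith
    have hfin : ∑ k ∈ Finset.Icc 1 A, |μ * a k| ≤ Λ * (Kb * (2 * (A * w))) := by
      calc ∑ k ∈ Finset.Icc 1 A, |μ * a k| ≤
            ∑ k ∈ Finset.Icc 1 A, Λ * (Kb * (k : ℝ) ^ (-(1 / 4) : ℝ)) := by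
            refine Finset.sum_le_sum fun k hk => ?_
            rw [abs_mul, abs_of_nonneg h0]
            exact mul_le_mul h1 (hp k hk) (abs_nonneg _) (by linarith)
        _ = Λ * (Kb * ∑ k ∈ Finset.Icc 1 A, (k : ℝ) ^ (-(1 / 4) : ℝ)) := by
            rw [Finset.mul_sum, Finset.mul_sum]
        _ ≤ _ := by gcongr
    refine hfin.trans ?_
    -- the size
    have h2 : w ≤ 2 * (X : ℝ) ^ (-(ε₂ / 8)) := by
      rw [hw]
      calc (A : ℝ) ^ (-(1 / 8) : ℝ) ≤ ((X : ℝ) ^ ε₂ / 2) ^ (-(1 / 8) : ℝ) :=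
            Real.rpow_le_rpow_of_nonpos (by positivity) hAX2 (by norm_num)
        _ = (X : ℝ) ^ (-(ε₂ / 8)) * (2 : ℝ) ^ (1 / 8 : ℝ) := by
            rw [Real.div_rpow (by positivity) (by norm_num), ← Real.rpow_mul hX0.le,
              Real.rpow_neg (by norm_num : (0 : ℝ) ≤ 2), div_inv_eq_mul]
            congr 2
            ring
        _ ≤ (X : ℝ) ^ (-(ε₂ / 8)) * 2 := by
            refine mul_le_mul_of_nonneg_left ?_ (by positivity)
            calc (2 : ℝ) ^ (1 / 8 : ℝ) ≤ (2 : ℝ) ^ (1 : ℝ) :=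
                  Real.rpow_le_rpow_of_exponent_le (by norm_num) (by norm_num)
              _ = 2 := Real.rpow_one _
        _ = _ := by ring
    have h3 : Real.log X ^ C₂ * (X : ℝ) ^ (-(ε₂ / 8)) ≤ 1 / (8 * Λ * Ct ^ C₃) := by
      rw [Real.rpow_neg hX0.le, ← div_eq_mul_inv, ← Real.rpow_natCast (Real.log X) C₂]
      exact hlim'.le
    have h4 : Λ * (Kb * (2 * w)) ≤ 1 := by
      rw [hKb]
      calc Λ * (Real.log X ^ C₂ * Ct ^ C₃ * (2 * w)) ≤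
            Λ * (Real.log X ^ C₂ * Ct ^ C₃ * (2 * (2 * (X : ℝ) ^ (-(ε₂ / 8))))) := by gcongr
        _ = 4 * Λ * Ct ^ C₃ * (Real.log X ^ C₂ * (X : ℝ) ^ (-(ε₂ / 8))) := by ring
        _ ≤ 4 * Λ * Ct ^ C₃ * (1 / (8 * Λ * Ct ^ C₃)) := by gcongr
        _ ≤ 1 := by
          have : 4 * Λ * Ct ^ C₃ * (1 / (8 * Λ * Ct ^ C₃)) = 1 / 2 := by
            field_simp
            norm_num
          rw [this]
          norm_num
    calc Λ * (Kb * (2 * (A * w))) = Λ * (Kb * (2 * w)) * A := by ring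
      _ ≤ 1 * A := mul_le_mul_of_nonneg_right h4 hA0.le
      _ = A := one_mul _
  · rw [abs_mul, abs_of_nonneg h0, mul_assoc, pow_succ]
    have h2 : 0 ≤ Real.log X ^ C₂ * tau k ^ C₃ := le_trans (by positivity) (hpt k)
    calc μ * (|a k| * Real.sqrt k) ≤ Real.log X * (Real.log X ^ C₂ * tau k ^ C₃) :=
          mul_le_mul (h1.trans hlogΛ) (hpt k) (by positivity) (by linarith)
      _ = _ := by ring

end Pool.Agent.LSP
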