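import Pool.Agent.Lib_helper98.HK.Fin
import Pool.Agent.Lib_helper98.HK.W2
import Pool.Agent.Lib_helper41.LSP2.DefsB
import Pool.Agent.Lib_helper68.LSP2.SC
import Pool.Agent.Lib_helper68.LSP2.TS
import Pool.Agent.Lib_helper68.LSP2.GLX

/-! LSP2, part F: the mollifier of every level is a mollifier operator. -/

set_option autoImplicit false

namespace Pool.Agent.LSP

open Pool.Agent.LEV Pool.Agent.LVB Pool.Agent.KSL
open Pool.Agent.FG61 (mu phi cc ff AA Lam)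
open Complex MeasureTheory Filter Topology UpperHalfPlane ModularGroup ProbabilityTheory
open scoped MatrixGroups Modular ENNReal ModularForm ComplexConjugate ContDiff

/-- the size of `E2` -/
theorem mo_e2 {κ : ℝ} (h0 : 0 < κ) (h1 : κ ≤ 1 / 1000) {c : ℝ} (hc : 0 < c) : ∃ X₀ : ℕ, ∀ X : ℕ,
    X₀ ≤ X → 1 ≤ E2 κ X ∧ (E2 κ X : ℝ) ≤ c * X := by
  obtain ⟨X₀, hX₀⟩ := fia_grow (a := 1 / 2 + 3 * κ) (c := c) (by linarith) hc
  refine ⟨X₀ + 1, fun X hX => ?_⟩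
  have hX1 : (1 : ℝ) ≤ X := by exact_mod_cast (by omega : 1 ≤ X)
  unfold E2
  constructor
  · rw [Nat.one_le_floor_iff]
    exact Real.one_le_rpow hX1 (by linarith)
  · exact (Nat.floor_le (by positivity)).trans (hX₀ X (by omega))

theorem mo_le_e2 {κ s : ℝ} {X e : ℕ} (hX : 1 ≤ X) (hs : s ≤ 1 / 2 + 3 * κ)
    (he : (e : ℝ) ≤ (X : ℝ) ^ s) : e ≤ E2 κ X := by
  have hX1 : (1 : ℝ) ≤ X := by exact_mod_cast hX
  unfold E2
  exact Nat.le_floor (he.trans (Real.rpow_le_rpow_of_exponent_le hX1 hs))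

/-- the mollifier does not depend on a bound for the support -/
theorem mo_mx {E E' : ℕ} {x : ℕ → ℝ} (h : ∀ e, x e ≠ 0 → 1 ≤ e ∧ e ≤ E)
    (h' : ∀ e, x e ≠ 0 → e ≤ E') (y : ℕ → ℝ) : MX E x y = MX E' x y := by
  unfold MX
  have h1 : ∀ E'' : ℕ, ∑ e ∈ Finset.Icc 1 E'', x e / Real.sqrt e * Um e y =
      ∑ e ∈ (Finset.Icc 1 E'').filter (fun e => x e ≠ 0), x e / Real.sqrt e * Um e y := by
    intro E''
    symm
    apply Finset.sum_subset (Finset.filter_subset _ _)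
    intro e he hne
    rw [Finset.mem_filter, not_and, not_not] at hne
    rw [hne he, zero_div, zero_mul]
  rw [h1 E, h1 E']
  apply Finset.sum_congr _ fun _ _ => rfl
  ext e
  rw [Finset.mem_filter, Finset.mem_filter, Finset.mem_Icc, Finset.mem_Icc]
  constructor
  · rintro ⟨⟨h2, h3⟩, h4⟩
    exact ⟨⟨h2, h' e h4⟩, h4⟩
  · rintro ⟨⟨h2, h3⟩, h4⟩
    exact ⟨⟨h2, (h e h4).2⟩, h4⟩

theorem mo_mx_add (E : ℕ) (x y : ℕ → ℝ) (la : ℕ → ℝ) :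
    MX E (fun e => x e - y e) la = MX E x la - MX E y la := by
  unfold MX
  rw [← Finset.sum_sub_distrib]
  refine Finset.sum_congr rfl fun e _ => ?_
  ring

theorem mo_mx_sum (E : ℕ) (P : Finset ℕ) (θ : ℕ → ℝ) (z : ℕ → ℕ → ℝ) (la : ℕ → ℝ) :
    MX E (fun e => ∑ p ∈ P, θ p * z p e) la = ∑ p ∈ P, θ p * MX E (z p) la := by
  unfold MX
  simp only [Finset.mul_sum]
  rw [Finset.sum_comm]
  refine Finset.sum_congr rfl fun e _ => ?_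
  rw [Finset.sum_div, Finset.sum_mul]
  refine Finset.sum_congr rfl fun p _ => ?_
  ring

/-- the mollifier of the vector `x2` -/
theorem mo_mx2 {κ v κ₁ t : ℝ} {X : ℕ} {θ a : ℕ → ℝ} {A : ℕ}
    (ha : ∀ k, a k ≠ 0 → smooth (zz X) k ∧ k ≤ A)
    (h0 : ∀ e, y0 κ₁ X a e ≠ 0 → 1 ≤ e ∧ e ≤ E2 κ X)
    (h1 : ∀ e, y1 κ v X a e ≠ 0 → 1 ≤ e ∧ ∀ p ∈ PB κ v X, p * e ≤ E2 κ X)
    (h0' : ∀ e, y0 κ₁ X a e ≠ 0 → e ≤ QA (MM κ₁ X) 2 A)
    (h1' : ∀ e, y1 κ v X a e ≠ 0 → e ≤ QA (MM (v - κ) X) 2 A ∧ e ≤ E2 κ X) (y : ℕ → ℝ) :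
    MX (E2 κ X) (x2 κ v κ₁ t X θ a) y = (∑ k ∈ Finset.Icc 1 A, a k * Um k y) *
      (Mr (zz X) (MM κ₁ X) 2 y -
        t * ((∑ p ∈ PB κ v X, θ p * (y p / Real.sqrt p)) * Mr (zz X) (MM (v - κ) X) 2 y)) := by
  have e1 : x2 κ v κ₁ t X θ a =
      fun e => y0 κ₁ X a e - (fun e => t * YT (PB κ v X) θ (y1 κ v X a) e) e := rfl
  have e2 : MX (E2 κ X) (y0 κ₁ X a) y =
      (∑ k ∈ Finset.Icc 1 A, a k * Um k y) * Mr (zz X) (MM κ₁ X) 2 y := by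
    rw [mo_mx h0 h0' y]
    exact (mx_split_pr (M := MM κ₁ X) (K := 2) ha).1 y
  have e3 : MX (E2 κ X) (y1 κ v X a) y =
      (∑ k ∈ Finset.Icc 1 A, a k * Um k y) * Mr (zz X) (MM (v - κ) X) 2 y := by
    rw [mo_mx (fun e he => ⟨(h1 e he).1, (h1' e he).2⟩) (fun e he => (h1' e he).1) y]
    exact (mx_split_pr (M := MM (v - κ) X) (K := 2) ha).1 y
  have e4 : MX (E2 κ X) (YT (PB κ v X) θ (y1 κ v X a)) y =
      (∑ p ∈ PB κ v X, θ p * (y p / Real.sqrt p)) * MX (E2 κ X) (y1 κ v X a) y := by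
    have e5 : YT (PB κ v X) θ (y1 κ v X a) =
        fun e => ∑ p ∈ PB κ v X, θ p * (fun p => Tp p (y1 κ v X a)) p e := rfl
    rw [e5, mo_mx_sum, Finset.sum_mul]
    refine Finset.sum_congr rfl fun p hp => ?_
    show θ p * MX (E2 κ X) (Tp p (y1 κ v X a)) y = _
    rw [mx_tp (ts_mem hp).1 (fun e he => ⟨(h1 e he).1, (h1 e he).2 p hp⟩)]
    ring
  rw [e1, mo_mx_add, sc_MX, e4, e3, e2]
  ring

end Pool.Agent.LSP
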