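import Pool.Agent.Lib_helper68.LSP2.MO

/-! LSP2, part F: the mollifier of every level is a mollifier operator. -/

set_option autoImplicit false

namespace Pool.Agent.LSP

open Pool.Agent.LEV Pool.Agent.LVB Pool.Agent.KSL
open Pool.Agent.FG61 (mu phi cc ff AA Lam)
open Complex MeasureTheory Filter Topology UpperHalfPlane ModularGroup ProbabilityTheory
open scoped MatrixGroups Modular ENNReal ModularForm ComplexConjugate ContDiff

/-- `A X^a ≤ X^b` for large `X` -/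
theorem mp_ev (A : ℝ) {a b : ℝ} (h : a < b) : ∃ X₀ : ℕ, ∀ X : ℕ, X₀ ≤ X →
    A * (X : ℝ) ^ a ≤ (X : ℝ) ^ b := by
  have h1 : Tendsto (fun X : ℕ => (X : ℝ) ^ (b - a)) atTop atTop :=
    (tendsto_rpow_atTop (by linarith)).comp tendsto_natCast_atTop_atTop
  obtain ⟨X₀, hX₀⟩ := Filter.eventually_atTop.mp
    ((h1.eventually_ge_atTop A).and (eventually_gt_atTop 0))
  refine ⟨X₀, fun X hX => ?_⟩
  obtain ⟨h2, h3⟩ := hX₀ X hX
  have hX : (0 : ℝ) < X := by exact_mod_cast h3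
  calc A * (X : ℝ) ^ a ≤ (X : ℝ) ^ (b - a) * (X : ℝ) ^ a := by gcongr
    _ = (X : ℝ) ^ b := by
      rw [← Real.rpow_add hX]
      congr 1
      ring

/-- the support of `xX` -/
theorem mp_supp {z M K A : ℕ} {a : ℕ → ℝ} (ha : ∀ k, a k ≠ 0 → smooth z k ∧ k ≤ A) {e : ℕ}
    (h : xX z M K a e ≠ 0) : 1 ≤ e ∧ e ≤ QA M K A := by
  unfold xX at h
  split_ifs at h with he
  · exact absurd rfl h
  have he1 : 1 ≤ e := by omega
  obtain ⟨e1, e2, e3, e4, e5⟩ := smp_rop_pr (z := z) he1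
  have h1 : a (smp z e) ≠ 0 := by
    intro h0
    exact h (by rw [h0, zero_mul, zero_mul])
  have h2 : xr z M K (rop z e) ≠ 0 := by
    intro h0
    exact h (by rw [h0, mul_zero])
  have h3 : xs z M K (rop z e) ≠ 0 := by
    intro h0
    apply h2
    unfold xr
    have : ∑ m ∈ Finset.Icc 1 (K * M), mu m * yE z M K (rop z e * m) = xs z M K (rop z e) := rfl
    rw [this, h0, mul_zero]
  obtain ⟨-, h4⟩ := SPL_xs_supp e5 h3
  refine ⟨he1, ?_⟩
  calc e = smp z e * rop z e := e1.symm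
    _ ≤ A * (K * M) := Nat.mul_le_mul (ha _ h1).2 h4
    _ = QA M K A := by unfold QA; ring

/-- the bounds for `ell` -/
theorem mp_ell {κ v t : ℝ} (h0 : 0 < κ) (h2 : v ≤ 1 / 80) (hκ : κ ≤ 1 / 80)
    (ht : 0 ≤ t) (htv : t * (κ / v) ≤ 1 / 2) : ∃ X₀ : ℕ, ∀ X : ℕ, X₀ ≤ X → ∀ θ : ℕ → ℝ,
    (∀ p ∈ PB κ v X, 0 ≤ θ p ∧ θ p ≤ 1) → ∑ p ∈ PB κ v X, θ p / p ≤ κ / v →
      1 / 2 ≤ ell κ v t X θ ∧ ell κ v t X θ ≤ 1 := by
  obtain ⟨X₁, hX₁⟩ := mp_ev 3 (a := v + κ) (b := 1 / 2 - (v - κ)) (by linarith)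
  obtain ⟨X₂, hX₂⟩ := mp_ev 3 (a := 0) (b := 1 / 2 - (v - κ)) (by linarith)
  refine ⟨X₁ + X₂ + 1, fun X hX θ hθ hS => ?_⟩
  have hX1 : (1 : ℝ) ≤ X := by exact_mod_cast (by omega : 1 ≤ X)
  have hX0 : (0 : ℝ) < X := by linarith
  have g1 := hX₁ X (by omega)
  have g2 := hX₂ X (by omega)
  rw [Real.rpow_zero, mul_one] at g2
  have hM : (X : ℝ) ^ (1 / 2 - (v - κ)) - 1 ≤ MM (v - κ) X := by
    have := Nat.lt_floor_add_one ((X : ℝ) ^ (1 / 2 - (v - κ)))
    unfold MM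
    linarith
  have hM2 : (2 : ℝ) ≤ MM (v - κ) X := by linarith
  have hlM : 0 < Real.log (MM (v - κ) X) := Real.log_pos (by linarith)
  have hr : ∀ p ∈ PB κ v X, 0 ≤ Real.log p / Real.log (MM (v - κ) X) ∧
      Real.log p / Real.log (MM (v - κ) X) ≤ 1 := by
    intro p hp
    obtain ⟨p1, -, p3, -⟩ := ts_mem hp
    have hp1 : (1 : ℝ) ≤ p := by exact_mod_cast p1.one_le
    refine ⟨div_nonneg (Real.log_nonneg hp1) hlM.le, ?_⟩
    rw [div_le_one hlM]
    apply Real.log_le_log (by linarith)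
    have h3 : (0 : ℝ) ≤ (X : ℝ) ^ (v + κ) := by positivity
    linarith
  have hsum : 0 ≤ ∑ p ∈ PB κ v X, θ p / p * (Real.log p / Real.log (MM (v - κ) X)) :=
    Finset.sum_nonneg fun p hp => mul_nonneg (div_nonneg (hθ p hp).1 (Nat.cast_nonneg p)) (hr p hp).1
  have hsum2 : ∑ p ∈ PB κ v X, θ p / p * (Real.log p / Real.log (MM (v - κ) X)) ≤ κ / v := by
    refine le_trans (Finset.sum_le_sum fun p hp => ?_) hS
    exact mul_le_of_le_one_right (div_nonneg (hθ p hp).1 (Nat.cast_nonneg p)) (hr p hp).2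
  unfold ell
  have h4 := mul_nonneg ht hsum
  have h5 := mul_le_mul_of_nonneg_left hsum2 ht
  constructor
  · linarith
  · linarith

/-- the mollifier of `x2`, divided by `ell`, is a mollifier operator -/
theorem molop_x2 {κ v κ₁ t ε₂ : ℝ} (h0 : 0 < κ) (h1 : 1000 * κ ≤ v) (h2 : v ≤ 1 / 80)
    (h3 : 0 < κ₁) (h4 : κ₁ ≤ κ) (h5 : 0 < ε₂) (h6 : ε₂ ≤ κ₁ / 1000) (ht0 : 0 ≤ t) (ht1 : t ≤ 1)
    (htv : t * (κ / v) ≤ 1 / 2) (C₀ C₁ : ℕ) {P : ℕ → Prop} (θ : ℕ → ℕ → ℝ) (Xθ : ℕ)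
    (hθ : ∀ X : ℕ, Xθ ≤ X → P X → (∀ p ∈ PB κ v X, 0 ≤ θ X p ∧ θ X p ≤ 1) ∧
      ∑ p ∈ PB κ v X, θ X p / p ≤ κ / v) :
    MolOp C₀ C₁ ε₂ P (E2 κ)
      (fun X a e => (ell κ v t X (θ X))⁻¹ * x2 κ v κ₁ t X (θ X) a e)
      (fun X y => (ell κ v t X (θ X))⁻¹ * (Mr (zz X) (MM κ₁ X) 2 y -
        t * ((∑ p ∈ PB κ v X, θ X p * (y p / Real.sqrt p)) * Mr (zz X) (MM (v - κ) X) 2 y))) := by
  have hκ : κ ≤ 1 / 1000 := by linarith
  obtain ⟨Xe, hXe⟩ := mp_ell h0 h2 (by linarith) ht0 htv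
  refine ⟨fun c hc => mo_e2 h0 hκ hc, fun m₀ => ?_, fun b hb ε hε => ?_⟩
  · obtain ⟨X₁, hX₁⟩ := y_supp h0 h1 h2 h3 h4 h5 h6
    obtain ⟨X₂, hX₂⟩ := ww_x2_pr h0 h1 h2 h3 h4 h5 h6
    obtain ⟨X₃, hX₃⟩ := mp_ev (2 * (m₀ + 1)) (a := 0) (b := v) (by linarith)
    obtain ⟨X₄, hX₄⟩ := mp_ev 2 (a := 1 / 2 + 2 * κ + 2 * ε₂) (b := 1 / 2 + 3 * κ) (by linarith)
    refine ⟨X₁ + X₂ + X₃ + X₄ + Xe + Xθ + 1, fun X hX hPX a ha hpt => ?_⟩
    have hX1 : (1 : ℝ) ≤ X := by exact_mod_cast (by omega : 1 ≤ X)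
    have hX0 : (0 : ℝ) < X := by linarith
    obtain ⟨hθ1, hθ2⟩ := hθ X (by omega) hPX
    obtain ⟨hl1, hl2⟩ := hXe X (by omega) (θ X) hθ1 hθ2
    obtain ⟨s0, s1, z0, z1, sY⟩ := hX₁ X (by omega) a ha
    obtain ⟨sY1, zY⟩ := sY (θ X)
    have g3 := hX₃ X (by omega)
    have g4 := hX₄ X (by omega)
    rw [Real.rpow_zero, mul_one] at g3
    have hl0 : (ell κ v t X (θ X))⁻¹ ≠ 0 := inv_ne_zero (by linarith)
    refine ⟨?_, ?_, ?_, ?_⟩
    · intro e he
      have he2 : x2 κ v κ₁ t X (θ X) a e ≠ 0 := fun h => he (by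
        show (ell κ v t X (θ X))⁻¹ * x2 κ v κ₁ t X (θ X) a e = 0
        rw [h, mul_zero])
      by_cases hy : y0 κ₁ X a e = 0
      · have hY : YT (PB κ v X) (θ X) (y1 κ v X a) e ≠ 0 := by
          intro h
          apply he2
          unfold x2
          rw [hy, h]
          ring
        obtain ⟨k1, k2⟩ := sY1 e hY
        exact ⟨k1, mo_le_e2 (by omega) (by linarith) k2⟩
      · obtain ⟨k1, k2⟩ := s0 e hy
        exact ⟨k1, mo_le_e2 (by omega) (by linarith) k2⟩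
    · have e1 : ∑ e ∈ Finset.Icc 1 (E2 κ X),
          (ell κ v t X (θ X))⁻¹ * x2 κ v κ₁ t X (θ X) a e * sg1 e / e =
          (ell κ v t X (θ X))⁻¹ * (∑ e ∈ Finset.Icc 1 (E2 κ X), y0 κ₁ X a e * sg1 e / e -
            t * ∑ e ∈ Finset.Icc 1 (E2 κ X),
              YT (PB κ v X) (θ X) (y1 κ v X a) e * sg1 e / e) := by
        rw [Finset.mul_sum (a := t), ← Finset.sum_sub_distrib, Finset.mul_sum]
        refine Finset.sum_congr rfl fun e _ => ?_
        unfold x2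
        ring
      show ∑ e ∈ Finset.Icc 1 (E2 κ X),
          (ell κ v t X (θ X))⁻¹ * x2 κ v κ₁ t X (θ X) a e * sg1 e / e = 0
      rw [e1, z0, zY]
      ring
    · intro y
      show MX (E2 κ X) (fun e => (ell κ v t X (θ X))⁻¹ * x2 κ v κ₁ t X (θ X) a e) y = _
      rw [sc_MX, mo_mx2 (A := KA ε₂ X) ha.sup
        (fun e he => ⟨(s0 e he).1, mo_le_e2 (by omega) (by linarith) (s0 e he).2⟩)
        (fun e he => ⟨(s1 e he).1, fun p hp => ?_⟩)
        (fun e he => (mp_supp ha.sup he).2)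
        (fun e he => ⟨(mp_supp ha.sup he).2,
          mo_le_e2 (by omega) (by linarith) (s1 e he).2⟩) y]
      · ring
      · obtain ⟨-, -, p3, -⟩ := ts_mem hp
        have k2 := (s1 e he).2
        unfold E2
        apply Nat.le_floor
        push_cast
        calc (p : ℝ) * e ≤ (2 * (X : ℝ) ^ (v + κ)) * (X : ℝ) ^ (1 / 2 - v + κ + 2 * ε₂) :=
              mul_le_mul p3 k2 (Nat.cast_nonneg _) (by positivity)
          _ = 2 * (X : ℝ) ^ (1 / 2 + 2 * κ + 2 * ε₂) := by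
              rw [mul_assoc, ← Real.rpow_add hX0]
              congr 2
              ring
          _ ≤ _ := g4
    · intro m hm1 hm2 hsm
      show WW (E2 κ X) (wX (E2 κ X)
        (fun e => (ell κ v t X (θ X))⁻¹ * x2 κ v κ₁ t X (θ X) a e)) m = Ph (KA ε₂ X) a m
      have hmX : (m : ℝ) < (X : ℝ) ^ v / 2 := by
        have h7 : (m : ℝ) ≤ m₀ := by exact_mod_cast hm2
        linarith
      rw [sc_WW, hX₂ X (by omega) a ha (θ X) t m hsm hm1 hmX, ← mul_assoc,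
        inv_mul_cancel₀ (by linarith), one_mul]
  · obtain ⟨X₁, hX₁⟩ := typ_m_sh (κ := -κ₁) (by linarith) (by linarith) (a := b / 4)
      (by positivity) (ε := ε / 3) (by positivity)
    obtain ⟨X₂, hX₂⟩ := typ_m_sh (κ := -(v - κ)) (by linarith) (by linarith) (a := b / 4)
      (by positivity) (ε := ε / 3) (by positivity)
    obtain ⟨X₃, hX₃⟩ := typ_s (κ := κ) (v := v) (by linarith) (b := b / 4) (by positivity)
      (ε := ε / 3) (by positivity)
    have hl : Tendsto (fun N : ℕ => Real.log (N : ℝ) ^ (b / 4)) atTop atTop :=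
      (tendsto_rpow_atTop (by positivity)).comp
        (Real.tendsto_log_atTop.comp tendsto_natCast_atTop_atTop)
    obtain ⟨X₄, hX₄⟩ := Filter.eventually_atTop.mp (hl.eventually_ge_atTop 4)
    refine ⟨X₁ + X₂ + X₃ + X₄ + Xe + Xθ + 1, fun X hX hPX N _ hXN hNX ι _ f hi hn s hs => ?_⟩
    classical
    have hX1 : (1 : ℝ) ≤ X := by exact_mod_cast (by omega : 1 ≤ X)
    have hlog0 : 0 ≤ Real.log X := Real.log_nonneg hX1
    obtain ⟨hθ1, hθ2⟩ := hθ X (by omega) hPX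
    obtain ⟨hl1, hl2⟩ := hXe X (by omega) (θ X) hθ1 hθ2
    have hκv : κ / v ≤ 1 := by
      rw [div_le_one (by linarith)]
      linarith
    have k1 := hX₁ X (by omega) N hXN f hi hn
    have k2 := hX₂ X (by omega) N hXN f hi hn
    have k3 := hX₃ X (by omega) (θ X) hθ1 (hθ2.trans hκv) N hXN f hi hn
    rw [neg_neg] at k1 k2
    have hw4 := hX₄ X (by omega)
    obtain ⟨w, hw⟩ : ∃ w : ℝ, w = Real.log X ^ (b / 4) := ⟨_, rfl⟩
    rw [← hw] at k1 k2 k3 hw4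
    have hwb : Real.log X ^ b = w ^ 4 := by
      rw [hw, ← Real.rpow_natCast, ← Real.rpow_mul hlog0]
      congr 1
      push_cast
      ring
    rw [hwb] at hs
    obtain ⟨s1, hs1⟩ : ∃ s1 : Finset ι, s1 = Finset.univ.filter
      (fun i => w < |Mr (zz X) (MM κ₁ X) 2 (la (f i))|) := ⟨_, rfl⟩
    obtain ⟨s2, hs2⟩ : ∃ s2 : Finset ι, s2 = Finset.univ.filter
      (fun i => w < |Mr (zz X) (MM (v - κ) X) 2 (la (f i))|) := ⟨_, rfl⟩
    obtain ⟨s3, hs3⟩ : ∃ s3 : Finset ι, s3 = Finset.univ.filter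
      (fun i => w < |∑ p ∈ PB κ v X, θ X p * (la (f i) p / Real.sqrt p)|) := ⟨_, rfl⟩
    have b1 := k1 s1 (fun i hi' => by rw [hs1, Finset.mem_filter] at hi'; exact hi'.2)
    have b2 := k2 s2 (fun i hi' => by rw [hs2, Finset.mem_filter] at hi'; exact hi'.2)
    have b3 := k3 s3 (fun i hi' => by rw [hs3, Finset.mem_filter] at hi'; exact hi'.2)
    have hom : ∀ i, 0 ≤ om (f i) := fun i => tym_om _
    have hsub : s ⊆ s1 ∪ (s2 ∪ s3) := by
      intro i hi'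
      by_contra hno
      rw [Finset.mem_union, Finset.mem_union] at hno
      push Not at hno
      obtain ⟨n1, n2, n3⟩ := hno
      have m1 : |Mr (zz X) (MM κ₁ X) 2 (la (f i))| ≤ w := by
        by_contra h
        push Not at h
        exact n1 (by rw [hs1, Finset.mem_filter]; exact ⟨Finset.mem_univ _, h⟩)
      have m2 : |Mr (zz X) (MM (v - κ) X) 2 (la (f i))| ≤ w := by
        by_contra h
        push Not at h
        exact n2 (by rw [hs2, Finset.mem_filter]; exact ⟨Finset.mem_univ _, h⟩)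
      have m3 : |∑ p ∈ PB κ v X, θ X p * (la (f i) p / Real.sqrt p)| ≤ w := by
        by_contra h
        push Not at h
        exact n3 (by rw [hs3, Finset.mem_filter]; exact ⟨Finset.mem_univ _, h⟩)
      have h7 := hs i hi'
      simp only [abs_mul] at h7
      have hw0 : 0 ≤ w := by linarith
      have h8 : |(ell κ v t X (θ X))⁻¹| ≤ 2 := by
        rw [abs_inv, abs_of_pos (by linarith)]
        exact inv_le_of_inv_le₀ (by norm_num) (by linarith)
      have h9 : |Mr (zz X) (MM κ₁ X) 2 (la (f i)) -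
          t * ((∑ p ∈ PB κ v X, θ X p * (la (f i) p / Real.sqrt p)) *
            Mr (zz X) (MM (v - κ) X) 2 (la (f i)))| ≤ w + w * w := by
        refine (abs_sub _ _).trans ?_
        rw [abs_mul, abs_mul, abs_of_nonneg ht0]
        have h10 : |∑ p ∈ PB κ v X, θ X p * (la (f i) p / Real.sqrt p)| *
            |Mr (zz X) (MM (v - κ) X) 2 (la (f i))| ≤ w * w :=
          mul_le_mul m3 m2 (abs_nonneg _) hw0
        have h11 : t * (|∑ p ∈ PB κ v X, θ X p * (la (f i) p / Real.sqrt p)| *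
            |Mr (zz X) (MM (v - κ) X) 2 (la (f i))|) ≤ 1 * (w * w) :=
          mul_le_mul ht1 h10 (by positivity) (by norm_num)
        linarith
      have h12 : |(ell κ v t X (θ X))⁻¹| * |Mr (zz X) (MM κ₁ X) 2 (la (f i)) -
          t * ((∑ p ∈ PB κ v X, θ X p * (la (f i) p / Real.sqrt p)) *
            Mr (zz X) (MM (v - κ) X) 2 (la (f i)))| ≤ 2 * (w + w * w) :=
        mul_le_mul h8 h9 (abs_nonneg _) (by norm_num)
      have h13 : 2 * (w + w * w) ≤ w ^ 4 := by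
        have h14 : w ≤ w * w := by nlinarith
        have h15 : 4 * (w * w) ≤ w ^ 4 := by
          have : w ^ 4 = w * w * (w * w) := by ring
          rw [this]
          have h16 : 4 ≤ w * w := by nlinarith
          exact mul_le_mul_of_nonneg_right h16 (by positivity)
        linarith
      linarith
    calc ∑ i ∈ s, om (f i) ≤ ∑ i ∈ s1 ∪ (s2 ∪ s3), om (f i) :=
          Finset.sum_le_sum_of_subset_of_nonneg hsub fun i _ _ => hom i
      _ ≤ ∑ i ∈ s1, om (f i) + ∑ i ∈ s2 ∪ s3, om (f i) := by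
          rw [← Finset.sum_union_inter]
          have : 0 ≤ ∑ i ∈ s1 ∩ (s2 ∪ s3), om (f i) := Finset.sum_nonneg fun i _ => hom i
          linarith
      _ ≤ ∑ i ∈ s1, om (f i) + (∑ i ∈ s2, om (f i) + ∑ i ∈ s3, om (f i)) := by
          have h7 : ∑ i ∈ s2 ∪ s3, om (f i) ≤ ∑ i ∈ s2, om (f i) + ∑ i ∈ s3, om (f i) := by
            rw [← Finset.sum_union_inter]
            have : 0 ≤ ∑ i ∈ s2 ∩ s3, om (f i) := Finset.sum_nonneg fun i _ => hom i
            linarith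
          linarith
      _ ≤ ε := by linarith

end Pool.Agent.LSP
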